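import Pool.Agent.Helper672.ZFA.Sys
import Pool.Agent.Helper672.ZFA.Nat

/-!
# The two element type, and sizes of finite sets
-/

namespace Pool.Agent.Helper672.ZFA

open FirstOrder FirstOrder.Language

universe u u₁ u₂ u₃ u₄

variable {M : Type u} [L.Structure M] [hM : IsModel M]
variable {α : Type u₁} {β : Type u₂} {γ : Type u₃} {δ : Type u₄}
  [ITy M α] [ITy M β] [ITy M γ] [ITy M δ]

/-- The code of a truth value. -/
noncomputable def codeBool (b : Bool) : M :=
  if b then up (small_empty (M := M)).elt (small_empty (M := M)).elt else (small_empty (M := M)).elt

theorem codeBool_ne : codeBool (M := M) true ≠ codeBool false := by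
  intro h
  have h1 : Mem (small_empty (M := M)).elt (codeBool (M := M) true) := by
    change Mem _ (up _ _)
    exact mem_up.2 (Or.inl rfl)
  rw [h] at h1
  exact absurd (small_empty.mem.1 h1) (Set.notMem_empty _)

noncomputable instance : ITy M Bool where
  code := codeBool
  inj a b h := by
    cases a <;> cases b
    · rfl
    · exact absurd h.symm codeBool_ne
    · exact absurd h codeBool_ne
    · rfl
  small := by
    refine ⟨up (codeBool (M := M) true) (codeBool false), isSet_up _ _, fun z => mem_up.trans ?_⟩
    constructor
    · rintro (h | h)
      · exact ⟨true, h.symm⟩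
      · exact ⟨false, h.symm⟩
    · rintro ⟨b, h⟩
      cases b
      · exact Or.inr h.symm
      · exact Or.inl h.symm

/-- Predicates that depend on a truth value. -/
theorem Int.bool {p : γ → Bool → Prop} {b : γ → Bool} (hb : IntF M b) (h0 : Int M (fun c => p c false))
    (h1 : Int M (fun c => p c true)) : Int M (fun c => p c (b c)) := by
  have h : Int M (fun c => (b c = false ∧ p c false) ∨ (b c = true ∧ p c true)) := by (with_reducible apply Int.or; with_reducible apply Int.and; with_reducible apply Int.eq; with_reducible assumption; with_reducible exact IntF.const _; with_reducible assumption; with_reducible apply Int.and; with_reducible apply Int.eq; with_reducible assumption; with_reducible exact IntF.const _; with_reducible assumption)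
  refine h.congr fun c => ?_
  cases b c <;> simp

theorem IntF.boolCases {f : γ → Bool → α} {b : γ → Bool} (hb : IntF M b)
    (h0 : IntF M (fun c => f c false)) (h1 : IntF M (fun c => f c true)) :
    IntF M (fun c => f c (b c)) := by
  refine IntF.of_rel (r := fun c a => (b c = false ∧ f c false = a) ∨ (b c = true ∧ f c true = a))
    ?_ fun c a => ?_
  · have h0' : IntF M (fun q : γ × α => f q.1 false) := IntF.comp (g := fun c => f c false) h0 IntF.fst'
    have h1' : IntF M (fun q : γ × α => f q.1 true) := IntF.comp (g := fun c => f c true) h1 IntF.fst'
    (with_reducible apply Int.or; with_reducible apply Int.and; with_reducible apply Int.eq; with_reducible ((refine IntF.comp ?_ ?_); assumption); with_reducible exact IntF.fst'; with_reducible exact IntF.const _; with_reducible apply Int.eq; with_reducible assumption; with_reducible exact IntF.snd'; with_reducible apply Int.and; with_reducible apply Int.eq; with_reducible ((refine IntF.comp ?_ ?_); assumption); with_reducible exact IntF.fst'; with_reducible exact IntF.const _; with_reducible apply Int.eq; with_reducible assumption; with_reducible exact IntF.snd')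
  · cases b c <;> simp

theorem IntF.not {b : γ → Bool} (hb : IntF M b) : IntF M (fun c => !(b c)) := by
  refine IntF.boolCases (f := fun _ b => !b) hb ?_ ?_
  · exact IntF.const _
  · exact IntF.const _

/-! ### Sizes -/

/-- `s` has at most `n` elements. -/
def Sz (n : INat M) (s : IPow M α) : Prop :=
  ∃ f : IFun M α (INat M), (∀ x, x ∈ s → f x < n) ∧ ∀ x y, x ∈ s → y ∈ s → f x = f y → x = y

theorem Int.sz {n : γ → INat M} {s : γ → IPow M α} (hn : IntF M n) (hs : IntF M s) :
    Int M (fun c => Sz (n c) (s c)) := by
  unfold Sz
  (with_reducible apply Int.ex; with_reducible apply Int.and; with_reducible apply Int.all; with_reducible apply Int.imp; with_reducible apply Int.mem; with_reducible exact IntF.snd'; with_reducible ((refine IntF.comp ?_ ?_); assumption); with_reducible apply IntF.fst; with_reducible exact IntF.fst'; with_reducible apply Int.ltN; with_reducible apply IntF.app; with_reducible apply IntF.snd; with_reducible exact IntF.fst'; with_reducible exact IntF.snd'; with_reducible ((refine IntF.comp ?_ ?_); assumption); with_reducible apply IntF.fst; with_reducible exact IntF.fst'; with_reducible apply Int.all; with_reducible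 apply Int.all; with_reducible apply Int.imp; with_reducible apply Int.mem; with_reducible apply IntF.snd; with_reducible exact IntF.fst'; with_reducible ((refine IntF.comp ?_ ?_); assumption); with_reducible apply IntF.fst; with_reducible apply IntF.fst; with_reducible exact IntF.fst'; with_reducible apply Int.imp; with_reducible apply Int.mem; with_reducible exact IntF.snd'; with_reducible ((refine IntF.comp ?_ ?_); assumption); with_reducible apply IntF.fst; with_reducible apply IntF.fst; with_reducible exact IntF.fst'; with_reducible apply Int.imp; with_reducible apply Int.eq; with_reducible apply IntF.app; with_reducible apply IntF.snd; with_reducible apply IntF.fst; with_reducible exact IntF.fst'; with_reducible apply IntF.snd; with_reducible exact IntF.fst'; with_reducible apply IntF.app; with_reducible apply IntF.snd; with_reducible apply IntF.fst; with_reducible exact IntF.fst'; with_reducible exact IntF.snd'; with_reducible apply Int.eq; with_reducible apply IntF.snd; with_reducible exact IntF.fst'; with_reducible exact IntF.snd')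

theorem Sz.subset {n : INat M} {s t : IPow M α} (h : Sz n s) (hts : t ⊆ s) : Sz n t := by
  obtain ⟨f, h1, h2⟩ := h
  exact ⟨f, fun x hx => h1 x (hts x hx), fun x y hx hy => h2 x y (hts x hx) (hts y hy)⟩

theorem Sz.zero {s : IPow M α} (h : Sz 0 s) {x : α} (hx : x ∈ s) : False := by
  obtain ⟨f, h1, -⟩ := h
  exact INat.not_lt_zero (h1 x hx)

open Classical in
theorem Sz.erase {n : INat M} {s : IPow M α} (h : Sz n.succ s) {r : α} (hr : r ∈ s) :
    Sz n (s \ {r}) := by
  obtain ⟨f, h1, h2⟩ := h
  have hg : IntF M (fun x : α => if f x = n then f r else f x) := by (with_reducible apply IntF.ite; with_reducible apply Int.eq; with_reducible apply IntF.app; with_reducible exact IntF.const _; with_reducible exact IntF.id; with_reducible exact IntF.const _; with_reducible exact IntF.const _; with_reducible apply IntF.app; with_reducible exact IntF.const _; with_reducible exact IntF.id)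
  refine ⟨lam M fun x : α => if f x = n then f r else f x, fun x hx => ?_, fun x y hx hy h => ?_⟩
  · rw [mem_sdiff, mem_singleton] at hx
    rw [lam_apply hg]
    have hlt : ∀ z, z ∈ s → f z ≠ n → f z < n := fun z hz hne =>
      lt_of_le_of_ne (INat.lt_succ_iff.1 (h1 z hz)) hne
    by_cases h3 : f x = n
    · rw [if_pos h3]
      refine hlt r hr fun h4 => ?_
      exact hx.2 (h2 x r hx.1 hr (h3.trans h4.symm))
    · rw [if_neg h3]
      exact hlt x hx.1 h3
  · rw [mem_sdiff, mem_singleton] at hx hy
    rw [lam_apply hg, lam_apply hg] at h
    by_cases h3 : f x = n <;> by_cases h4 : f y = n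
    · exact h2 x y hx.1 hy.1 (h3.trans h4.symm)
    · rw [if_pos h3, if_neg h4] at h
      exact absurd (h2 r y hr hy.1 h).symm hy.2
    · rw [if_neg h3, if_pos h4] at h
      exact absurd (h2 x r hx.1 hr h) hx.2
    · rw [if_neg h3, if_neg h4] at h
      exact h2 x y hx.1 hy.1 h

open Classical in
theorem Sz.insert {n : INat M} {s : IPow M α} (h : Sz n s) (a : α) :
    Sz n.succ (Insert.insert a s) := by
  obtain ⟨f, h1, h2⟩ := h
  have hg : IntF M (fun x : α => if x = a then n else f x) := by (with_reducible apply IntF.ite; with_reducible apply Int.eq; with_reducible exact IntF.id; with_reducible exact IntF.const _; with_reducible exact IntF.const _; with_reducible apply IntF.app; with_reducible exact IntF.const _; with_reducible exact IntF.id)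
  refine ⟨lam M fun x : α => if x = a then n else f x, fun x hx => ?_, fun x y hx hy h => ?_⟩
  · rw [lam_apply hg]
    by_cases h3 : x = a
    · rw [if_pos h3]
      exact INat.lt_succ_self n
    · rw [if_neg h3]
      exact (h1 x ((mem_insert.1 hx).resolve_left h3)).trans (INat.lt_succ_self n)
  · rw [lam_apply hg, lam_apply hg] at h
    by_cases h3 : x = a <;> by_cases h4 : y = a
    · rw [h3, h4]
    · rw [if_pos h3, if_neg h4] at h
      exact absurd h (h1 y ((mem_insert.1 hy).resolve_left h4)).ne'
    · rw [if_neg h3, if_pos h4] at h
      exact absurd h (h1 x ((mem_insert.1 hx).resolve_left h3)).ne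
    · rw [if_neg h3, if_neg h4] at h
      exact h2 x y ((mem_insert.1 hx).resolve_left h3) ((mem_insert.1 hy).resolve_left h4) h

theorem IFin.sz {s : IPow M α} (hs : IFin s) : ∃ n : INat M, Sz n s := by
  refine IFin.ind (p := fun s : IPow M α => ∃ n : INat M, Sz n s) (by (with_reducible apply Int.ex; with_reducible apply Int.sz; with_reducible exact IntF.snd'; with_reducible exact IntF.fst')) ?_ ?_ s hs
  · refine ⟨0, ⟨lam M fun _ => 0, fun x hx => absurd hx (by simp), fun x y hx => absurd hx (by simp)⟩⟩
  · rintro s a _ _ ⟨n, hn⟩
    exact ⟨n.succ, hn.insert a⟩

theorem Sz.preimage {n : INat M} {s : IPow M α} (h : Sz n s) {t : IPow M β} {g : β → α}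
    (hg : IntF M g) (hgi : Function.Injective g) (hgt : ∀ x, x ∈ t → g x ∈ s) : Sz n t := by
  obtain ⟨f, h1, h2⟩ := h
  have hf : IntF M (fun x : β => f (g x)) := by (with_reducible apply IntF.app; with_reducible exact IntF.const _; with_reducible assumption)
  refine ⟨lam M fun x : β => f (g x), fun x hx => ?_, fun x y hx hy h => ?_⟩
  · rw [lam_apply hf]
    exact h1 _ (hgt x hx)
  · rw [lam_apply hf, lam_apply hf] at h
    exact hgi (h2 _ _ (hgt x hx) (hgt y hy) h)

/-- Least number. -/
theorem INat.least {p : INat M → Prop} (hp : Int M p) (h : ∃ n, p n) :
    ∃ n, p n ∧ ∀ m, p m → n ≤ m := by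
  by_contra hcon
  push Not at hcon
  have h1 : ∀ n : INat M, ∀ m, m < n → ¬ p m := by
    refine INat.ind (p := fun n : INat M => ∀ m, m < n → ¬ p m) (by (with_reducible apply Int.all; with_reducible apply Int.imp; with_reducible apply Int.ltN; with_reducible exact IntF.snd'; with_reducible exact IntF.fst'; with_reducible apply Int.not; with_reducible ((refine Int.comp ?_ ?_); assumption); with_reducible exact IntF.snd')) ?_ ?_
    · intro m hm
      exact absurd hm INat.not_lt_zero
    · intro n ih m hm hpm
      obtain ⟨k, hk, h2⟩ := hcon m hpm
      exact ih k (h2.trans_le (INat.lt_succ_iff.1 hm)) hk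
  obtain ⟨n, hn⟩ := h
  exact h1 n.succ n (INat.lt_succ_self n) hn

/-! ### Minimal hitting sets -/

/-- `T` meets every member of the family `A`. -/
def Hits (A : IPow M (IPow M α)) (T : IPow M α) : Prop := ∀ R, R ∈ A → ∃ x, x ∈ R ∧ x ∈ T

theorem Int.hits {A : γ → IPow M (IPow M α)} {T : γ → IPow M α} (hA : IntF M A) (hT : IntF M T) :
    Int M (fun c => Hits (A c) (T c)) := by
  unfold Hits
  (with_reducible apply Int.all; with_reducible apply Int.imp; with_reducible apply Int.mem; with_reducible exact IntF.snd'; with_reducible ((refine IntF.comp ?_ ?_); assumption); with_reducible exact IntF.fst'; with_reducible apply Int.ex; with_reducible apply Int.and; with_reducible apply Int.mem; with_reducible exact IntF.snd'; with_reducible apply IntF.snd; with_reducible exact IntF.fst'; with_reducible apply Int.mem; with_reducible exact IntF.snd'; with_reducible ((refine IntF.comp ?_ ?_); assumption); with_reducible apply IntF.fst; with_reducible exact IntF.fst')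

/-- Inclusion minimal hitting sets. -/
def MinHit (A : IPow M (IPow M α)) (T : IPow M α) : Prop :=
  Hits A T ∧ ∀ T' : IPow M α, T' ⊆ T → Hits A T' → T' = T

theorem Int.minHit {A : γ → IPow M (IPow M α)} {T : γ → IPow M α} (hA : IntF M A)
    (hT : IntF M T) : Int M (fun c => MinHit (A c) (T c)) := by
  unfold MinHit
  (with_reducible apply Int.and; with_reducible apply Int.hits; with_reducible assumption; with_reducible assumption; with_reducible apply Int.all; with_reducible apply Int.imp; with_reducible apply Int.subset; with_reducible exact IntF.snd'; with_reducible ((refine IntF.comp ?_ ?_); assumption); with_reducible exact IntF.fst'; with_reducible apply Int.imp; with_reducible apply Int.hits; with_reducible ((refine IntF.comp ?_ ?_); assumption); with_reducible exact IntF.fst'; with_reducible exact IntF.snd'; with_reducible apply Int.eq; with_reducible exact IntF.snd'; with_reducible ((refine IntF.comp ?_ ?_); assumption); with_reducible exact IntF.fst')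

theorem minHit_finite_aux {A : IPow M (IPow M α)} (hA : ∀ R, R ∈ A → IFin R) (n : INat M) :
    ∀ S : IPow M α, IFin (sep M fun T : IPow M α => MinHit A T ∧ S ⊆ T ∧ Sz n (T \ S)) := by
  refine INat.ind (p := fun n => ∀ S : IPow M α,
    IFin (sep M fun T : IPow M α => MinHit A T ∧ S ⊆ T ∧ Sz n (T \ S))) (by (with_reducible apply Int.all; with_reducible apply Int.fin; with_reducible apply IntF.sep; with_reducible apply Int.and; with_reducible apply Int.minHit; with_reducible exact IntF.const _; with_reducible exact IntF.snd'; with_reducible apply Int.and; with_reducible apply Int.subset; with_reducible apply IntF.snd; with_reducible exact IntF.fst'; with_reducible exact IntF.snd'; with_reducible apply Int.sz; with_reducible apply IntF.fst; with_reducible exact IntF.fst'; with_reducible apply IntF.sdiff; with_reducible exact IntF.snd'; with_reducible apply IntF.snd; with_reducible exact IntF.fst')) ?_ ?_ n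
  · intro S
    refine (IFin.singleton S).subset fun T hT => ?_
    rw [mem_sep (by (with_reducible apply Int.and; with_reducible apply Int.minHit; with_reducible exact IntF.const _; with_reducible exact IntF.id; with_reducible apply Int.and; with_reducible apply Int.subset; with_reducible exact IntF.const _; with_reducible exact IntF.id; with_reducible apply Int.sz; with_reducible exact IntF.const _; with_reducible apply IntF.sdiff; with_reducible exact IntF.id; with_reducible exact IntF.const _))] at hT
    rw [mem_singleton]
    refine IPow.ext' fun x => ⟨fun hx => ?_, hT.2.1 x⟩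
    by_contra h
    exact hT.2.2.zero (x := x) (by rw [mem_sdiff]; exact ⟨hx, h⟩)
  · intro n ih S
    by_cases hS : Hits A S
    · refine (IFin.singleton S).subset fun T hT => ?_
      rw [mem_sep (by (with_reducible apply Int.and; with_reducible apply Int.minHit; with_reducible exact IntF.const _; with_reducible exact IntF.id; with_reducible apply Int.and; with_reducible apply Int.subset; with_reducible exact IntF.const _; with_reducible exact IntF.id; with_reducible apply Int.sz; with_reducible apply IntF.succ; with_reducible exact IntF.const _; with_reducible apply IntF.sdiff; with_reducible exact IntF.id; with_reducible exact IntF.const _))] at hT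
      rw [mem_singleton]
      exact (hT.1.2 S hT.2.1 hS).symm
    · unfold Hits at hS
      push Not at hS
      obtain ⟨R, hR, h1⟩ := hS
      have hI : IntF M (fun x : α => sep M fun T : IPow M α =>
        MinHit A T ∧ insert x S ⊆ T ∧ Sz n (T \ insert x S)) := by (with_reducible apply IntF.sep; with_reducible apply Int.and; with_reducible apply Int.minHit; with_reducible exact IntF.const _; with_reducible exact IntF.snd'; with_reducible apply Int.and; with_reducible apply Int.subset; with_reducible apply IntF.insert; with_reducible exact IntF.fst'; with_reducible exact IntF.const _; with_reducible exact IntF.snd'; with_reducible apply Int.sz; with_reducible exact IntF.const _; with_reducible apply IntF.sdiff; with_reducible exact IntF.snd'; with_reducible apply IntF.insert; with_reducible exact IntF.fst'; with_reducible exact IntF.const _)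
      refine (((hA R hR).image hI).isUnion ?_).subset fun T hT => ?_
      · intro F hF
        rw [mem_iimage hI] at hF
        obtain ⟨x, _, rfl⟩ := hF
        exact ih _
      · rw [mem_sep (by (with_reducible apply Int.and; with_reducible apply Int.minHit; with_reducible exact IntF.const _; with_reducible exact IntF.id; with_reducible apply Int.and; with_reducible apply Int.subset; with_reducible exact IntF.const _; with_reducible exact IntF.id; with_reducible apply Int.sz; with_reducible apply IntF.succ; with_reducible exact IntF.const _; with_reducible apply IntF.sdiff; with_reducible exact IntF.id; with_reducible exact IntF.const _))] at hT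
        obtain ⟨h2, h3, h4⟩ := hT
        obtain ⟨x, hx, hxT⟩ := h2.1 R hR
        rw [mem_isUnion]
        refine ⟨sep M fun T : IPow M α => MinHit A T ∧ insert x S ⊆ T ∧ Sz n (T \ insert x S),
          (mem_iimage hI).2 ⟨x, hx, rfl⟩, ?_⟩
        rw [mem_sep (by (with_reducible apply Int.and; with_reducible apply Int.minHit; with_reducible exact IntF.const _; with_reducible exact IntF.id; with_reducible apply Int.and; with_reducible apply Int.subset; with_reducible apply IntF.insert; with_reducible exact IntF.const _; with_reducible exact IntF.const _; with_reducible exact IntF.id; with_reducible apply Int.sz; with_reducible exact IntF.const _; with_reducible apply IntF.sdiff; with_reducible exact IntF.id; with_reducible apply IntF.insert; with_reducible exact IntF.const _; with_reducible exact IntF.const _))]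
        refine ⟨h2, fun y hy => ?_, ?_⟩
        · rcases mem_insert.1 hy with rfl | hy
          · exact hxT
          · exact h3 y hy
        · refine (h4.erase (r := x) (by rw [mem_sdiff]; exact ⟨hxT, h1 x hx⟩)).subset fun y hy => ?_
          rw [mem_sdiff, mem_insert] at hy
          rw [mem_sdiff, mem_sdiff, mem_singleton]
          push Not at hy
          exact ⟨⟨hy.1, hy.2.2⟩, hy.2.1⟩

theorem minHit_finite {A : IPow M (IPow M α)} (hA : ∀ R, R ∈ A → IFin R) (n : INat M) :
    IFin (sep M fun T : IPow M α => MinHit A T ∧ Sz n T) := by
  refine (minHit_finite_aux hA n ∅).subset fun T hT => ?_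
  rw [mem_sep (by (with_reducible apply Int.and; with_reducible apply Int.minHit; with_reducible exact IntF.const _; with_reducible exact IntF.id; with_reducible apply Int.sz; with_reducible exact IntF.const _; with_reducible exact IntF.id))] at hT
  rw [mem_sep (by (with_reducible apply Int.and; with_reducible apply Int.minHit; with_reducible exact IntF.const _; with_reducible exact IntF.id; with_reducible apply Int.and; with_reducible apply Int.subset; with_reducible exact IntF.const _; with_reducible exact IntF.id; with_reducible apply Int.sz; with_reducible exact IntF.const _; with_reducible apply IntF.sdiff; with_reducible exact IntF.id; with_reducible exact IntF.const _))]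
  refine ⟨hT.1, fun x hx => absurd hx (by simp), hT.2.subset fun x hx => ?_⟩
  rw [mem_sdiff] at hx
  exact hx.1

theorem exists_minHit {A : IPow M (IPow M α)} {T : IPow M α} (hT : IFin T) (h : Hits A T) :
    ∃ T', T' ⊆ T ∧ MinHit A T' := by
  have hi : Int M (fun T' : IPow M α => T' ⊆ T ∧ Hits A T') := by (with_reducible apply Int.and; with_reducible apply Int.subset; with_reducible exact IntF.id; with_reducible exact IntF.const _; with_reducible apply Int.hits; with_reducible exact IntF.const _; with_reducible exact IntF.id)
  obtain ⟨T', h1, h2⟩ := IFin.exists_min (lt := fun s t : IPow M α => s ⊆ t ∧ s ≠ t)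
    (s := sep M fun T' : IPow M α => T' ⊆ T ∧ Hits A T') (by (with_reducible apply Int.and; with_reducible apply Int.subset; with_reducible exact IntF.fst'; with_reducible exact IntF.snd'; with_reducible apply Int.ne; with_reducible exact IntF.fst'; with_reducible exact IntF.snd')) (fun a h => h.2 rfl)
    (fun a b c h h' => ⟨fun x hx => h'.1 x (h.1 x hx), fun h3 => by
      subst h3
      exact h.2 (subset_antisymm' h.1 h'.1)⟩)
    (hT.pow.subset fun s hs => mem_ipow.2 ((mem_sep hi).1 hs).1)
    ⟨T, (mem_sep hi).2 ⟨fun _ => id, h⟩⟩
  rw [mem_sep hi] at h1
  refine ⟨T', h1.1, h1.2, fun T'' h3 h4 => ?_⟩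
  by_contra h5
  exact h2 T'' ((mem_sep hi).2 ⟨fun x hx => h1.1 x (h3 x hx), h4⟩) ⟨h3, h5⟩

end Pool.Agent.Helper672.ZFA
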