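import Pool.Agent.Helper672.SIK.Sik

/-!
# Choice implies injectivity
-/

namespace Pool.Agent.Helper672.ZFA

open FirstOrder FirstOrder.Language

universe u u₁

variable {M : Type u} [L.Structure M] [hM : IsModel M]

theorem isSet_code_pow {A : Type u₁} [ITy M A] (T : IPow M A) : IsSet (code (M := M) T) :=
  T.int.small.isSet

/-- Internal choice functions. -/
theorem AC.choice (h : AC M) (A : Type u₁) [ITy M A] [Nonempty A] :
    ∃ c : IFun M (IPow M A) A, ∀ T, (∃ x, x ∈ T) → c T ∈ T := by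
  have hi : Int M (fun T : IPow M A => ∃ x, x ∈ T) := by (with_reducible apply Int.ex; with_reducible apply Int.mem; with_reducible exact IntF.snd'; with_reducible exact IntF.fst')
  obtain ⟨f, -, h1, h2⟩ := h hi.small.elt hi.small.isSet (fun x hx => by
    rw [hi.small.mem] at hx
    obtain ⟨T, ⟨y, hy⟩, rfl⟩ := hx
    exact ⟨isSet_code_pow T, code y, mem_code_iff.2 hy⟩)
  have hf : Int M (fun q : IPow M A × A => Mem (code (M := M) q) f) := ⟨f, fun _ => Iff.rfl⟩
  obtain ⟨d⟩ := ‹Nonempty A›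
  have hr : Int M (fun q : IPow M A × A => ((∃ x, x ∈ q.1) ∧ Mem (code (M := M) q) f) ∨
      ((¬ ∃ x, x ∈ q.1) ∧ q.2 = d)) := by (with_reducible apply Int.or; with_reducible apply Int.and; with_reducible apply Int.ex; with_reducible apply Int.mem; with_reducible exact IntF.snd'; with_reducible apply IntF.fst; with_reducible exact IntF.fst'; with_reducible assumption; with_reducible apply Int.and; with_reducible apply Int.not; with_reducible apply Int.ex; with_reducible apply Int.mem; with_reducible exact IntF.snd'; with_reducible apply IntF.fst; with_reducible exact IntF.fst'; with_reducible apply Int.eq; with_reducible exact IntF.snd'; with_reducible exact IntF.const _)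
  have key : ∀ T : IPow M A, (∃ x, x ∈ T) → ∃ y, y ∈ T ∧ ∀ z, Mem (op (code T) (code z)) f ↔
      z = y := by
    intro T hT
    obtain ⟨y, ⟨q, hq, hqf⟩, hy⟩ := h2 (code T) (hi.small.mem.2 ⟨T, hT, rfl⟩)
    obtain ⟨x', y', -, h4, h5⟩ := h1 q hqf
    rw [isOrdPair_iff_op] at hq h5
    rw [hq] at h5
    obtain ⟨h6, h7⟩ := op_inj h5
    rw [← h6, ← h7] at h4
    obtain ⟨a, ha, rfl⟩ := mem_code_pow.1 h4
    refine ⟨a, ha, fun z => ⟨fun hz => ?_, ?_⟩⟩
    · exact ITy.inj (hy _ ⟨_, isOrdPair_iff_op.2 rfl, hz⟩)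
    · rintro rfl
      rw [← hq]
      exact hqf
  classical
  have hex : ∀ T : IPow M A, ∃ y, ((∃ x, x ∈ T) → y ∈ T) ∧ ∀ z,
      (((∃ x, x ∈ T) ∧ Mem (op (code T) (code z)) f) ∨ ((¬ ∃ x, x ∈ T) ∧ z = d)) ↔ y = z := by
    intro T
    by_cases hT : ∃ x, x ∈ T
    · obtain ⟨y, hy, h3⟩ := key T hT
      refine ⟨y, fun _ => hy, fun z => ?_⟩
      rw [h3 z]
      simp only [hT, true_and, not_true_eq_false, false_and, or_false]
      exact eq_comm
    · refine ⟨d, fun h => absurd h hT, fun z => ?_⟩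
      simp only [hT, false_and, not_false_eq_true, true_and, false_or]
      exact eq_comm
  choose c hc1 hc2 using hex
  refine ⟨⟨c, IntF.of_rel (r := fun (T : IPow M A) z => ((∃ x, x ∈ T) ∧
    Mem (op (code T) (code z)) f) ∨ ((¬ ∃ x, x ∈ T) ∧ z = d)) hr fun T z => hc2 T z⟩, hc1⟩

end Pool.Agent.Helper672.ZFA
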