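import Pool.Agent.Helper672.SIK.Plain
import Pool.Agent.Helper672.SIK.Conv

/-!
# From the language of set theory to set theory with atoms
-/

namespace Pool.Agent.Helper672.Plain

open FirstOrder FirstOrder.Language

universe u

variable {M : Type u} [LSet.Structure M]

variable (M) in
/-- The structure for set theory with atoms in which everything is a set. -/
@[reducible] def toL : ZFA.L.Structure M where
  funMap := fun f => Empty.elim f
  RelMap := fun {_} r v => match r, v with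
    | ZFA.Sym.isSet, _ => True
    | ZFA.Sym.mem, v => Structure.RelMap (L := LSet) (Sym.mem : LSet.Relations 2) v

section

attribute [local instance] toL

theorem isSet_toL (x : M) : ZFA.IsSet x := trivial

theorem mem_toL {x y : M} : ZFA.Mem x y ↔ Mem x y := Iff.rfl

theorem exists_term {ι : Type} {n : ℕ}
    (t : ZFA.L[[(Set.univ : Set M)]].Term (ι ⊕ Fin n)) :
    ∃ t' : LSet[[(Set.univ : Set M)]].Term (ι ⊕ Fin n), ∀ v : (ι ⊕ Fin n) → M,
      t'.realize v = t.realize v := by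
  induction t with
  | var i => exact ⟨Term.var i, fun _ => rfl⟩
  | @func k f ts ih =>
    rcases f with f | f
    · exact Empty.elim f
    · rcases k with _ | k
      · obtain rfl : ts = default := Subsingleton.elim _ _
        let a : (Set.univ : Set M) := f
        refine ⟨(LSet.con a).term, fun v => ?_⟩
        change Term.realize v (LSet.con a).term = Term.realize v (ZFA.L.con a).term
        rw [Term.realize_constants, Term.realize_constants]
        simp
      · exact PEmpty.elim f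

theorem exists_formula {ι : Type} {n : ℕ}
    (φ : ZFA.L[[(Set.univ : Set M)]].BoundedFormula ι n) :
    ∃ ψ : LSet[[(Set.univ : Set M)]].BoundedFormula ι n, ∀ (v : ι → M) (xs : Fin n → M),
      ψ.Realize v xs ↔ φ.Realize v xs := by
  induction φ with
  | falsum => exact ⟨BoundedFormula.falsum, fun _ _ => Iff.rfl⟩
  | equal t₁ t₂ =>
    obtain ⟨s₁, h₁⟩ := exists_term t₁
    obtain ⟨s₂, h₂⟩ := exists_term t₂
    refine ⟨BoundedFormula.equal s₁ s₂, fun v xs => ?_⟩
    simp only [BoundedFormula.Realize, h₁, h₂]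
  | @rel k l R ts =>
    rcases R with R | R
    · cases R with
      | isSet =>
        refine ⟨⊤, fun v xs => ?_⟩
        simp only [BoundedFormula.realize_top, true_iff]
        trivial
      | mem =>
        choose s hs using fun i => exists_term (ts i)
        refine ⟨BoundedFormula.rel (L := LSet[[(Set.univ : Set M)]]) (Sum.inl Sym.mem) s,
          fun v xs => ?_⟩
        simp only [BoundedFormula.Realize, hs]
        rfl
    · exact Empty.elim R
  | imp φ₁ φ₂ ih₁ ih₂ =>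
    obtain ⟨ψ₁, h₁⟩ := ih₁
    obtain ⟨ψ₂, h₂⟩ := ih₂
    exact ⟨ψ₁.imp ψ₂, fun v xs => by simp only [BoundedFormula.realize_imp, h₁, h₂]⟩
  | all φ ih =>
    obtain ⟨ψ, h⟩ := ih
    exact ⟨ψ.all, fun v xs => by simp only [BoundedFormula.realize_all, h]⟩

theorem definable_toL {S : Set M} (h : (Set.univ : Set M).Definable₁ ZFA.L S) :
    (Set.univ : Set M).Definable₁ LSet S := by
  obtain ⟨φ, hφ⟩ := h
  obtain ⟨ψ, hψ⟩ := exists_formula φ
  refine ⟨ψ, ?_⟩
  rw [hφ]
  ext v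
  exact (hψ v _).symm

theorem isModel_toL [h : Zermelo M] : ZFA.IsModel M where
  atoms _ _ _ := trivial
  ext x y _ _ h1 := h.ext x y h1
  pairing x y := by
    obtain ⟨p, hp⟩ := h.pairing x y
    exact ⟨p, trivial, hp⟩
  union x := by
    obtain ⟨a, ha⟩ := h.union x
    exact ⟨a, trivial, ha⟩
  power x := by
    obtain ⟨p, hp⟩ := h.power x
    exact ⟨p, trivial, fun z => (hp z).trans ⟨fun h1 => ⟨trivial, h1⟩, fun h1 => h1.2⟩⟩
  infinity := by
    obtain ⟨i, ⟨e, h1, h2⟩, h3⟩ := h.infinity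
    refine ⟨i, ⟨e, h1, trivial, h2⟩, fun n hn => ?_⟩
    obtain ⟨s, hs, h4⟩ := h3 n hn
    exact ⟨s, hs, trivial, h4⟩
  separation S hS x := by
    obtain ⟨y, hy⟩ := h.separation S (definable_toL hS) x
    exact ⟨y, trivial, hy⟩

theorem isPair_toL {p x y : M} : ZFA.IsPair p x y ↔ IsPair p x y :=
  ⟨fun h => h.2, fun h => ⟨trivial, h⟩⟩

theorem isOrdPair_toL {p x y : M} : ZFA.IsOrdPair p x y ↔ IsOrdPair p x y := by
  unfold ZFA.IsOrdPair IsOrdPair
  simp only [isPair_toL]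

theorem intOp_toL {a : M} {f : El a → El a → El a} :
    ZFA.IntOp (M := M) (a := a) (b := a) (c := a) f ↔ ∃ g, IsOpGraph f g := by
  unfold ZFA.IntOp IsOpGraph
  refine exists_congr fun g => forall_congr' fun x => forall_congr' fun y => forall_congr' fun z =>
    iff_congr Iff.rfl ?_
  exact exists_congr fun p => exists_congr fun q =>
    and_congr isOrdPair_toL (and_congr isOrdPair_toL Iff.rfl)

theorem intBA_toL {a : M} (iA : BooleanAlgebra (El a)) :
    @ZFA.IntBA M _ a iA ↔ IsBA a :=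
  and_congr intOp_toL intOp_toL

theorem ac_toL : ZFA.AC M ↔ AC M := by
  unfold ZFA.AC AC
  constructor
  · intro h a ha
    obtain ⟨f, -, h1, h2⟩ := h a trivial fun x hx => ⟨trivial, ha x hx⟩
    refine ⟨f, fun q hq => ?_, fun x hx => ?_⟩
    · obtain ⟨x, y, h3, h4, h5⟩ := h1 q hq
      exact ⟨x, y, h3, h4, isOrdPair_toL.1 h5⟩
    · have h3 := h2 x hx
      simp only [isOrdPair_toL] at h3
      exact h3
  · intro h a _ ha
    obtain ⟨f, h1, h2⟩ := h a fun x hx => (ha x hx).2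
    refine ⟨f, trivial, fun q hq => ?_, fun x hx => ?_⟩
    · obtain ⟨x, y, h3, h4, h5⟩ := h1 q hq
      exact ⟨x, y, h3, h4, isOrdPair_toL.2 h5⟩
    · have h3 := h2 x hx
      simp only [← isOrdPair_toL] at h3
      exact h3

theorem sik_toL (h : CompleteInjective M) : ZFA.SIK M := by
  intro b iB hb hbc a iA ha S s hs f hf
  obtain ⟨t, ht⟩ := hf
  obtain ⟨g, ⟨t', ht'⟩, hg⟩ := @h b iB ((intBA_toL iB).1 hb) (fun s _ => hbc s) a iA
    ((intBA_toL iA).1 ha) s S hs f
    ⟨t, fun x y => (ht x y).trans (exists_congr fun p => and_congr isOrdPair_toL Iff.rfl)⟩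
  refine ⟨g, ⟨t', fun x y => ?_⟩, hg⟩
  exact (ht' x y).trans (exists_congr fun p => and_congr isOrdPair_toL.symm Iff.rfl)

theorem ba_toL {a : M} [hZ : Zermelo M] (iA : BooleanAlgebra (El a)) (h : IsBA a) :
    @ZFA.IBA M _ isModel_toL (ZFA.El a) (@ZFA.elITy M _ isModel_toL a) iA := by
  have _ : ZFA.IsModel M := isModel_toL
  obtain ⟨⟨g, hg⟩, g', hg'⟩ := h
  refine @ZFA.IBA.mk M _ _ (ZFA.El a) _ iA ⟨g, ?_⟩ ⟨g', ?_⟩
  · rintro ⟨⟨x, y⟩, z⟩
    refine Iff.trans ?_ (hg x y z).symm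
    constructor
    · intro h1
      exact ⟨_, _, isOrdPair_toL.1 (ZFA.isOrdPair_iff_op.2 rfl),
        isOrdPair_toL.1 (ZFA.isOrdPair_iff_op.2 rfl), h1⟩
    · rintro ⟨p, q, h1, h2, h3⟩
      rw [← isOrdPair_toL, ZFA.isOrdPair_iff_op] at h1 h2
      subst h1 h2
      exact h3
  · rintro ⟨⟨x, y⟩, z⟩
    refine Iff.trans ?_ (hg' x y z).symm
    constructor
    · intro h1
      exact ⟨_, _, isOrdPair_toL.1 (ZFA.isOrdPair_iff_op.2 rfl),
        isOrdPair_toL.1 (ZFA.isOrdPair_iff_op.2 rfl), h1⟩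
    · rintro ⟨p, q, h1, h2, h3⟩
      rw [← isOrdPair_toL, ZFA.isOrdPair_iff_op] at h1 h2
      subst h1 h2
      exact h3

theorem sik_of_ac [hZ : Zermelo M] (h : ZFA.AC M) : CompleteInjective M := by
  have hM : ZFA.IsModel M := isModel_toL
  intro b iB hb hbc a iA ha s S hs f ⟨t, ht⟩
  let A := ZFA.El a
  let B := ZFA.El b
  let _ : BooleanAlgebra A := iA
  let _ : BooleanAlgebra B := iB
  have _ : ZFA.IBA M A := ba_toL iA ha
  have _ : ZFA.IBA M B := ba_toL iB hb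
  have _ : Nonempty A := ⟨⊥⟩
  obtain ⟨c, hc⟩ := ZFA.AC.choice h A
  have hcpl : ∀ s : ZFA.IPow M B, ∃ x, IsLUB {y | y ∈ s} x := by
    intro s
    obtain ⟨x, hx⟩ := hbc s.int.small.elt (fun z hz => by
      obtain ⟨y, -, rfl⟩ := ZFA.mem_code_pow.1 (mem_toL.2 hz)
      exact y.2)
    refine ⟨x, ?_⟩
    have h1 : {y : El b | Mem y.1 s.int.small.elt} = {y : B | y ∈ s} := by
      ext y
      refine (ZFA.mem_code_pow (s := s) (z := y.1)).trans ⟨?_, fun h => ⟨y, h, rfl⟩⟩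
      rintro ⟨z, hz, h⟩
      obtain rfl : z = y := Subtype.ext h
      exact hz
    rw [h1] at hx
    exact hx
  have hR : ZFA.Int M (fun q : A × B => Mem q.1.1 s ∧ Mem (ZFA.op q.1.1 q.2.1) t) := by
    refine ZFA.Int.and ?_ ⟨t, fun _ => Iff.rfl⟩
    exact ZFA.Int.comp (p := fun x : A => Mem x.1 s) ⟨s, fun _ => Iff.rfl⟩ ZFA.IntF.fst'
  have hR' : ∀ (x : A) (y : B), (x, y) ∈ (⟨_, hR⟩ : ZFA.IPow M (A × B)) ↔
      ∃ h : x ∈ S, f ⟨x, h⟩ = y := by
    intro x y
    change (Mem x.1 s ∧ Mem (ZFA.op x.1 y.1) t) ↔ _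
    rw [← hs x]
    refine ⟨fun ⟨h1, h2⟩ => ⟨h1, (ht ⟨x, h1⟩ y).2 ?_⟩, fun ⟨h1, h2⟩ => ⟨h1, ?_⟩⟩
    · exact ⟨_, isOrdPair_toL.1 (ZFA.isOrdPair_iff_op.2 rfl), h2⟩
    · obtain ⟨p, h3, h4⟩ := (ht ⟨x, h1⟩ y).1 h2
      rw [← isOrdPair_toL, ZFA.isOrdPair_iff_op] at h3
      rwa [h3] at h4
  obtain ⟨g, ⟨r, hr⟩, hg⟩ := ZFA.sikorski hcpl c hc ⟨_, hR⟩ (by
    refine ⟨(hR' ⊥ ⊥).2 ⟨S.bot_mem, map_bot f⟩, ?_, ?_, ?_⟩
    · rintro ⟨x, y⟩ ⟨x', y'⟩ h1 h2
      obtain ⟨h3, rfl⟩ := (hR' x y).1 h1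
      obtain ⟨h4, rfl⟩ := (hR' x' y').1 h2
      exact (hR' (x ⊔ x') _).2 ⟨S.sup_mem h3 h4, f.map_sup' (⟨x, h3⟩ : S) (⟨x', h4⟩ : S)⟩
    · rintro ⟨x, y⟩ h1
      obtain ⟨h3, rfl⟩ := (hR' x y).1 h1
      exact (hR' xᶜ _).2 ⟨S.compl_mem h3, map_compl' f (⟨x, h3⟩ : S)⟩
    · intro y hy
      obtain ⟨h3, rfl⟩ := (hR' ⊥ y).1 hy
      exact map_bot f)
  refine ⟨g, ⟨r, fun x y => ?_⟩, fun x => hg _ _ ((hR' x.1 (f x)).2 ⟨x.2, rfl⟩)⟩
  refine (hr (x, y)).symm.trans ?_
  constructor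
  · intro h1
    exact ⟨_, isOrdPair_toL.1 (ZFA.isOrdPair_iff_op.2 rfl), h1⟩
  · rintro ⟨p, h1, h2⟩
    rw [← isOrdPair_toL, ZFA.isOrdPair_iff_op] at h1
    subst h1
    exact h2

end

section

/-- In every model of Zermelo set theory in which all complete Boolean algebras are injective,
the axiom of choice holds. -/
theorem CompleteInjective.ac [hZ : Zermelo M] (h : CompleteInjective M) : AC M := by
  let _ := toL M
  have _ : ZFA.IsModel M := isModel_toL
  exact ac_toL.1 (sik_toL h).ac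

/-- In every model of Zermelo set theory with the axiom of choice all complete Boolean algebras
are injective. -/
theorem AC.completeInjective [hZ : Zermelo M] (h : AC M) : CompleteInjective M := by
  let _ := toL M
  exact sik_of_ac (ac_toL.2 h)

end

end Pool.Agent.Helper672.Plain
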