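import Pool.Agent.Helper672.SIK.Ord

/-!
# Injectivity implies choice
-/

namespace Pool.Agent.Helper672.ZFA

open FirstOrder FirstOrder.Language

universe u

variable {M : Type u} [L.Structure M] [hM : IsModel M]

/-- The elements of an element of the model form an internal type. -/
noncomputable instance elITy (x : M) : ITy M (El x) where
  code z := z.1
  inj _ _ h := Subtype.ext h
  small := by
    by_cases hx : IsSet x
    · exact ⟨x, hx, fun z => ⟨fun h => ⟨⟨z, h⟩, rfl⟩, fun ⟨a, h⟩ => h ▸ a.2⟩⟩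
    · obtain ⟨e, he, h⟩ := small_empty (M := M)
      refine ⟨e, he, fun z => ⟨fun h1 => absurd ((h z).1 h1) (Set.notMem_empty z), fun ⟨a, _⟩ =>
        absurd (hM.atoms _ _ a.2) hx⟩⟩

theorem int_mem_el (a w : M) : Int M (fun q : El a × El w => Mem q.2.1 q.1.1) :=
  Int.of_D₂ (S := fun v => Mem (v 1) (v 0)) (D.memf (DF.var _) (DF.var _)) fun _ _ => Iff.rfl

instance factMemEl (a w : M) : Fact (Int M (fun q : El a × El w => Mem q.2.1 q.1.1)) :=
  ⟨int_mem_el a w⟩

/-- Pairs `(x, z)` with `x ∈ a` and `z ∈ x`. -/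
abbrev PairTy (a w : M) := {q : El a × El w // Mem q.2.1 q.1.1}

theorem SIK.ac (h : SIK M) : AC M := by
  intro a _ ha'
  have ha : ∀ x, Mem x a → ∃ y, Mem y x := fun x hx => (ha' x hx).2
  obtain ⟨w, hw, hwa⟩ := hM.union a
  have hκ : IntF M (fun q : PairTy a w => q.1.1) := IntF.fst IntF.val'
  obtain ⟨C, hC⟩ := h.mc hκ
  obtain ⟨o, ho⟩ := h.order (El w)
  have hr : Int M (fun q : El a × El w => ∃ j : PairTy a w, j ∈ C q.1 ∧ j.1.2 = q.2 ∧
      ∀ j' : PairTy a w, j' ∈ C q.1 → (j.1.2, j'.1.2) ∈ o) := by (with_reducible apply Int.ex; with_reducible apply Int.and; with_reducible apply Int.mem; with_reducible exact IntF.snd'; with_reducible apply IntF.app; with_reducible exact IntF.const _; with_reducible apply IntF.fst; with_reducible exact IntF.fst'; with_reducible apply Int.and; with_reducible apply Int.eq; with_reducible apply IntF.snd; with_reducible apply IntF.val; with_reducible exact IntF.snd'; with_reducible apply IntF.snd; with_reducible exact IntF.fst';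 with_reducible apply Int.all; with_reducible apply Int.imp; with_reducible apply Int.mem; with_reducible exact IntF.snd'; with_reducible apply IntF.app; with_reducible exact IntF.const _; with_reducible apply IntF.fst; with_reducible apply IntF.fst; with_reducible exact IntF.fst'; with_reducible apply Int.mem; with_reducible apply IntF.pair; with_reducible apply IntF.snd; with_reducible apply IntF.val; with_reducible apply IntF.snd; with_reducible exact IntF.fst'; with_reducible apply IntF.snd; with_reducible apply IntF.val; with_reducible exact IntF.snd'; with_reducible exact IntF.const _)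
  have hf : ∀ x : El a, ∀ y : M, Mem (op x.1 y) hr.small.elt ↔ ∃ y' : El w, y'.1 = y ∧
      ∃ j : PairTy a w, j ∈ C x ∧ j.1.2 = y' ∧
      ∀ j' : PairTy a w, j' ∈ C x → (j.1.2, j'.1.2) ∈ o := by
    intro x y
    rw [hr.small.mem]
    constructor
    · rintro ⟨⟨x', y'⟩, h1, h2⟩
      obtain ⟨h3, h4⟩ := op_inj (h2 : op x'.1 y'.1 = op x.1 y)
      have h5 : x' = x := Subtype.ext h3
      subst h5
      exact ⟨y', h4, h1⟩
    · rintro ⟨y', rfl, h1⟩
      exact ⟨(x, y'), h1, rfl⟩
  have hk : ∀ x : El a, ∃ j : PairTy a w, j.1.1 = x := by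
    intro x
    obtain ⟨y₀, hy₀⟩ := ha x.1 x.2
    exact ⟨⟨(x, ⟨y₀, (hwa y₀).2 ⟨x.1, x.2, hy₀⟩⟩), hy₀⟩, rfl⟩
  have hdom : ∀ q, Mem q hr.small.elt → ∃ x y, Mem x a ∧ Mem y x ∧ IsOrdPair q x y := by
    intro q hq
    rw [hr.small.mem] at hq
    obtain ⟨⟨x, y⟩, ⟨j, h1, h2, -⟩, rfl⟩ := hq
    obtain ⟨-, -, h3⟩ := hC x (hk x)
    have h4 := h3 j h1
    refine ⟨x.1, y.1, x.2, ?_, isOrdPair_iff_op.2 rfl⟩
    have h5 := j.2
    rw [h4] at h5
    simp only at h2
    rwa [h2] at h5
  refine ⟨hr.small.elt, hr.small.isSet, hdom, fun x hx => ?_⟩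
  obtain ⟨h1, h2, h3⟩ := hC ⟨x, hx⟩ (hk ⟨x, hx⟩)
  have hmin : ∃ j, j ∈ C ⟨x, hx⟩ ∧ ∀ j' : PairTy a w, j' ∈ C ⟨x, hx⟩ → (j.1.2, j'.1.2) ∈ o := by
    have hinj : ∀ j j' : PairTy a w, j ∈ C ⟨x, hx⟩ → j' ∈ C ⟨x, hx⟩ → j.1.2 = j'.1.2 → j = j' := by
      intro j j' hj hj' h4
      exact Subtype.ext (Prod.ext ((h3 j hj).trans (h3 j' hj').symm) h4)
    obtain ⟨j, hj, h4⟩ := IFin.exists_min
      (lt := fun b c : PairTy a w => (b.1.2, c.1.2) ∈ o ∧ b.1.2 ≠ c.1.2)
      (by
        have : Int M (fun q : PairTy a w × PairTy a w => (q.1.1.2, q.2.1.2) ∈ o ∧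
          ¬ q.1.1.2 = q.2.1.2) := by (with_reducible apply Int.and; with_reducible apply Int.mem; with_reducible apply IntF.pair; with_reducible apply IntF.snd; with_reducible apply IntF.val; with_reducible exact IntF.fst'; with_reducible apply IntF.snd; with_reducible apply IntF.val; with_reducible exact IntF.snd'; with_reducible exact IntF.const _; with_reducible apply Int.ne; with_reducible apply IntF.snd; with_reducible apply IntF.val; with_reducible exact IntF.fst'; with_reducible apply IntF.snd; with_reducible apply IntF.val; with_reducible exact IntF.snd')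
        exact this) (fun b h => h.2 rfl)
      (fun b c d h h' => ⟨ho.1 _ _ _ h.1 h'.1, fun h5 => by
        rw [← h5] at h'
        exact h.2 (ho.2.1 _ _ h.1 h'.1)⟩) h1 h2
    refine ⟨j, hj, fun j' hj' => ?_⟩
    by_cases h5 : j.1.2 = j'.1.2
    · rw [← h5]
      rcases ho.2.2 j.1.2 j.1.2 with h | h <;> exact h
    · rcases ho.2.2 j.1.2 j'.1.2 with h | h
      · exact h
      · exact absurd ⟨h, Ne.symm h5⟩ (h4 j' hj')
  obtain ⟨j, hj, h4⟩ := hmin
  refine ⟨j.1.2.1, ⟨op x j.1.2.1, isOrdPair_iff_op.2 rfl,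
    (hf ⟨x, hx⟩ _).2 ⟨j.1.2, rfl, j, hj, rfl, h4⟩⟩, ?_⟩
  rintro y ⟨q, hq, h5⟩
  rw [isOrdPair_iff_op] at hq
  subst hq
  obtain ⟨z, rfl, j', hj', rfl, h6⟩ := (hf ⟨x, hx⟩ _).1 h5
  exact congrArg Subtype.val (ho.2.1 _ _ (h6 _ hj) (h4 _ hj'))

end Pool.Agent.Helper672.ZFA
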