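import Pool.Agent.Helper672.SIK.Inj

/-!
# Finite conditions, flips, and multiple choice
-/

namespace Pool.Agent.Helper672.ZFA

open FirstOrder FirstOrder.Language

universe u u₁ u₂ u₃ u₄

variable {M : Type u} [L.Structure M] [hM : IsModel M]
variable {γ : Type u₃} [ITy M γ]
variable {J : Type u₁} {K : Type u₂} [ITy M J] [ITy M K]

/-- Finite partial functions to the truth values. -/
def IsCnd (p : IPow M (J × Bool)) : Prop := IFin p ∧ ∀ j, ¬ ((j, true) ∈ p ∧ (j, false) ∈ p)

instance factCnd : Fact (Int M (fun p : IPow M (J × Bool) => IsCnd p)) := ⟨by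
  unfold IsCnd
  (with_reducible apply Int.and; with_reducible apply Int.fin; with_reducible exact IntF.id; with_reducible apply Int.all; with_reducible apply Int.not; with_reducible apply Int.and; with_reducible apply Int.mem; with_reducible apply IntF.pair; with_reducible exact IntF.snd'; with_reducible exact IntF.const _; with_reducible exact IntF.fst'; with_reducible apply Int.mem; with_reducible apply IntF.pair; with_reducible exact IntF.snd'; with_reducible exact IntF.const _; with_reducible exact IntF.fst')⟩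

variable (M J) in
/-- Conditions. -/
abbrev Cnd := {p : IPow M (J × Bool) // IsCnd p}

instance : Preorder (Cnd M J) where
  le q p := p.1 ⊆ q.1
  le_refl _ _ := id
  le_trans _ _ _ h h' x hx := h x (h' x hx)

theorem cnd_le {p q : Cnd M J} : q ≤ p ↔ p.1 ⊆ q.1 := Iff.rfl

instance : ILe M (Cnd M J) := ⟨by
  have h : Int M (fun q : Cnd M J × Cnd M J => q.2.1 ⊆ q.1.1) := by (with_reducible apply Int.subset; with_reducible apply IntF.val; with_reducible exact IntF.snd'; with_reducible apply IntF.val; with_reducible exact IntF.fst')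
  exact h⟩

open Classical in
/-- The flip at `k`. -/
noncomputable def fl (κ : J → K) (k : K) (q : J × Bool) : J × Bool :=
  (q.1, if κ q.1 = k then !q.2 else q.2)

theorem fl_fl (κ : J → K) (k : K) (q : J × Bool) : fl κ k (fl κ k q) = q := by
  unfold fl
  by_cases h : κ q.1 = k <;> simp [h]

theorem IntF.fl {κ : J → K} (hκ : IntF M κ) {k : γ → K} {q : γ → J × Bool} (hk : IntF M k)
    (hq : IntF M q) : IntF M (fun c => fl κ (k c) (q c)) := by
  unfold ZFA.fl
  have h : IntF M (fun c => κ (q c).1) := hκ.comp (IntF.fst hq)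
  (with_reducible apply IntF.pair; with_reducible apply IntF.fst; with_reducible assumption; with_reducible apply IntF.ite; with_reducible apply Int.eq; with_reducible assumption; with_reducible assumption; with_reducible apply IntF.not; with_reducible apply IntF.snd; with_reducible assumption; with_reducible apply IntF.snd; with_reducible assumption)

/-- The flip of a condition. -/
noncomputable def flp (κ : J → K) (k : K) (p : IPow M (J × Bool)) : IPow M (J × Bool) :=
  sep M fun q => fl κ k q ∈ p

section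

variable {κ : J → K}

theorem mem_flp (hκ : IntF M κ) {k : K} {p : IPow M (J × Bool)} {q : J × Bool} :
    q ∈ flp κ k p ↔ fl κ k q ∈ p := by
  unfold flp
  rw [mem_sep (Int.mem (IntF.fl hκ (IntF.const _) IntF.id) (IntF.const _))]

theorem IntF.flp (hκ : IntF M κ) {k : γ → K} {p : γ → IPow M (J × Bool)} (hk : IntF M k)
    (hp : IntF M p) : IntF M (fun c => flp κ (k c) (p c)) := by
  unfold ZFA.flp
  refine IntF.sep (Int.mem (IntF.fl hκ ?_ ?_) ?_)
  · (with_reducible ((refine IntF.comp ?_ ?_); assumption); with_reducible exact IntF.fst')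
  · (with_reducible exact IntF.snd')
  · (with_reducible ((refine IntF.comp ?_ ?_); assumption); with_reducible exact IntF.fst')

theorem flp_flp (hκ : IntF M κ) (k : K) (p : IPow M (J × Bool)) : flp κ k (flp κ k p) = p :=
  IPow.ext' fun q => by rw [mem_flp hκ, mem_flp hκ, fl_fl]

theorem isCnd_flp (hκ : IntF M κ) (k : K) {p : IPow M (J × Bool)} (hp : IsCnd p) :
    IsCnd (flp κ k p) := by
  have hf : IntF M (fun q : J × Bool => fl κ k q) := IntF.fl hκ (IntF.const _) IntF.id
  refine ⟨(hp.1.image hf).subset fun q hq => ?_, fun j hj => ?_⟩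
  · rw [mem_flp hκ] at hq
    exact (mem_iimage hf).2 ⟨_, hq, fl_fl κ k q⟩
  · rw [mem_flp hκ, mem_flp hκ] at hj
    unfold fl at hj
    by_cases h : κ j = k
    · simp only [h, if_true, Bool.not_true, Bool.not_false] at hj
      exact hp.2 j ⟨hj.2, hj.1⟩
    · simp only [h, if_false] at hj
      exact hp.2 j hj

/-- The flip on conditions. -/
noncomputable def cfl (hκ : IntF M κ) (k : K) (p : Cnd M J) : Cnd M J :=
  ⟨flp κ k p.1, isCnd_flp hκ k p.2⟩

theorem cfl_cfl (hκ : IntF M κ) (k : K) (p : Cnd M J) : cfl hκ k (cfl hκ k p) = p :=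
  Subtype.ext (flp_flp hκ k p.1)

theorem cfl_mono (hκ : IntF M κ) (k : K) {p q : Cnd M J} (h : q ≤ p) :
    cfl hκ k q ≤ cfl hκ k p := by
  intro x hx
  change x ∈ flp κ k p.1 at hx
  change x ∈ flp κ k q.1
  rw [mem_flp hκ] at hx ⊢
  exact h _ hx

theorem cfl_le_iff (hκ : IntF M κ) (k : K) {p q : Cnd M J} :
    cfl hκ k q ≤ p ↔ q ≤ cfl hκ k p := by
  constructor
  · intro h
    rw [← cfl_cfl hκ k q]
    exact cfl_mono hκ k h
  · intro h
    rw [← cfl_cfl hκ k p]
    exact cfl_mono hκ k h

theorem IntF.cfl (hκ : IntF M κ) {k : γ → K} {p : γ → Cnd M J} (hk : IntF M k)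
    (hp : IntF M p) : IntF M (fun c => cfl hκ (k c) (p c)) := by
  refine IntF.mk ?_
  exact IntF.flp hκ hk (IntF.val hp)

/-- The action on regular open sets. -/
noncomputable def act (hκ : IntF M κ) (k : K) (U : RO M (Cnd M J)) : RO M (Cnd M J) :=
  ⟨sep M fun p => cfl hκ k p ∈ U.1, by
    have hi : Int M (fun p : Cnd M J => cfl hκ k p ∈ U.1) :=
      Int.mem (IntF.cfl hκ (IntF.const _) IntF.id) (IntF.const _)
    refine ⟨fun p q hqp hp => ?_, fun p hp => ?_⟩
    · rw [mem_sep hi] at hp ⊢
      exact U.2.1 _ _ (cfl_mono hκ k hqp) hp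
    · rw [mem_sep hi]
      refine U.2.2 _ fun q hq => ?_
      obtain ⟨r, hr, h⟩ := hp (cfl hκ k q) ((cfl_le_iff hκ k).2 hq)
      rw [mem_sep hi] at h
      refine ⟨cfl hκ k r, ?_, h⟩
      rw [cfl_le_iff]
      exact hr⟩

theorem mem_act (hκ : IntF M κ) {k : K} {U : RO M (Cnd M J)} {p : Cnd M J} :
    p ∈ act hκ k U ↔ cfl hκ k p ∈ U :=
  mem_sep (Int.mem (IntF.cfl hκ (IntF.const _) IntF.id) (IntF.const _))

theorem IntF.act (hκ : IntF M κ) {k : γ → K} {U : γ → RO M (Cnd M J)} (hk : IntF M k)
    (hU : IntF M U) : IntF M (fun c => act hκ (k c) (U c)) := by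
  refine IntF.mk ?_
  refine IntF.sep (Int.mem (IntF.cfl hκ ?_ ?_) ?_)
  · (with_reducible ((refine IntF.comp ?_ ?_); assumption); with_reducible exact IntF.fst')
  · (with_reducible exact IntF.snd')
  · (with_reducible apply IntF.val; with_reducible ((refine IntF.comp ?_ ?_); assumption); with_reducible exact IntF.fst')

theorem act_act (hκ : IntF M κ) (k : K) (U : RO M (Cnd M J)) : act hκ k (act hκ k U) = U :=
  RO.ext' fun p => by rw [mem_act, mem_act, cfl_cfl]

/-- The action as an automorphism. -/
noncomputable def actIso (hκ : IntF M κ) (k : K) : RO M (Cnd M J) ≃o RO M (Cnd M J) where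
  toFun := act hκ k
  invFun := act hκ k
  left_inv := act_act hκ k
  right_inv := act_act hκ k
  map_rel_iff' := by
    intro U V
    constructor
    · intro h p hp
      have h1 := h (cfl hκ k p) ((mem_act hκ).2 (by rw [cfl_cfl]; exact hp))
      have h2 := (mem_act hκ).1 h1
      rwa [cfl_cfl] at h2
    · intro h p hp
      exact (mem_act hκ).2 (h _ ((mem_act hκ).1 hp))

theorem actIso_apply (hκ : IntF M κ) (k : K) (U : RO M (Cnd M J)) : actIso hκ k U = act hκ k U :=
  rfl

/-- The regular open set of conditions forcing value `true` at `j`. -/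
noncomputable def tau (M : Type u) [L.Structure M] [IsModel M] {J : Type u₁} [ITy M J] (j : J) :
    RO M (Cnd M J) :=
  ⟨sep M fun p => (j, true) ∈ p.1, by
    have hi : Int M (fun p : Cnd M J => (j, true) ∈ p.1) := by (with_reducible apply Int.mem; with_reducible exact IntF.const _; with_reducible apply IntF.val; with_reducible exact IntF.id)
    refine ⟨fun p q hqp hp => ?_, fun p hp => ?_⟩
    · rw [mem_sep hi] at hp ⊢
      exact hqp _ hp
    · rw [mem_sep hi]
      by_contra h
      have hc : IsCnd (insert (j, false) p.1) := by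
        refine ⟨p.2.1.insert _, fun i hi' => ?_⟩
        rw [mem_insert, mem_insert] at hi'
        obtain ⟨h1, h2⟩ := hi'
        rcases h1 with h1 | h1
        · exact absurd (congrArg Prod.snd h1) (by simp)
        · rcases h2 with h2 | h2
          · obtain rfl : i = j := congrArg Prod.fst h2
            exact h h1
          · exact p.2.2 i ⟨h1, h2⟩
      obtain ⟨r, hr, h1⟩ := hp ⟨_, hc⟩ fun x hx => mem_insert.2 (Or.inr hx)
      rw [mem_sep hi] at h1
      exact r.2.2 j ⟨h1, hr _ (mem_insert.2 (Or.inl rfl))⟩⟩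

theorem mem_tau {j : J} {p : Cnd M J} : p ∈ tau M j ↔ (j, true) ∈ p.1 := by
  have hi : Int M (fun p : Cnd M J => (j, true) ∈ p.1) := by (with_reducible apply Int.mem; with_reducible exact IntF.const _; with_reducible apply IntF.val; with_reducible exact IntF.id)
  exact mem_sep hi

theorem mem_tau_compl {j : J} {p : Cnd M J} : p ∈ (tau M j)ᶜ ↔ (j, false) ∈ p.1 := by
  rw [RO.mem_compl]
  constructor
  · intro h
    by_contra h0
    have hc : IsCnd (insert (j, true) p.1) := by
      refine ⟨p.2.1.insert _, fun i hi' => ?_⟩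
      rw [mem_insert, mem_insert] at hi'
      obtain ⟨h1, h2⟩ := hi'
      rcases h2 with h2 | h2
      · exact absurd (congrArg Prod.snd h2) (by simp)
      · rcases h1 with h1 | h1
        · obtain rfl : i = j := congrArg Prod.fst h1
          exact h0 h2
        · exact p.2.2 i ⟨h1, h2⟩
    exact h ⟨_, hc⟩ (fun x hx => mem_insert.2 (Or.inr hx)) (mem_tau.2 (mem_insert.2 (Or.inl rfl)))
  · intro h q hq h1
    exact q.2.2 j ⟨mem_tau.1 h1, hq _ h⟩

theorem act_tau (hκ : IntF M κ) (j : J) : act hκ (κ j) (tau M j) = (tau M j)ᶜ := by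
  refine RO.ext' fun p => ?_
  rw [mem_act, mem_tau, mem_tau_compl]
  change _ ∈ flp κ (κ j) p.1 ↔ _
  rw [mem_flp hκ]
  unfold fl
  simp

theorem act_tau_ne (hκ : IntF M κ) {k : K} {j : J} (h : κ j ≠ k) :
    act hκ k (tau M j) = tau M j := by
  refine RO.ext' fun p => ?_
  rw [mem_act, mem_tau, mem_tau]
  change _ ∈ flp κ k p.1 ↔ _
  rw [mem_flp hκ]
  unfold fl
  simp [h]

/-- The invariant regular open sets. -/
noncomputable def inv (hκ : IntF M κ) : BooleanSubalgebra (RO M (Cnd M J)) where
  carrier := {U | ∀ k, act hκ k U = U}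
  supClosed' := by
    intro U hU V hV k
    rw [← actIso_apply, map_sup, actIso_apply, actIso_apply, hU k, hV k]
  infClosed' := by
    intro U hU V hV k
    rw [← actIso_apply, map_inf, actIso_apply, actIso_apply, hU k, hV k]
  compl_mem' := by
    intro U hU k
    rw [← actIso_apply, map_compl, actIso_apply, hU k]
  bot_mem' := by
    intro k
    rw [← actIso_apply, map_bot]

theorem mem_inv {hκ : IntF M κ} {U : RO M (Cnd M J)} : U ∈ inv hκ ↔ ∀ k, act hκ k U = U := Iff.rfl

end

end Pool.Agent.Helper672.ZFA
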