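import Pool.Agent.Helper672.SIK.Reg

/-!
# Injectivity of complete Boolean algebras in a model, and its transport to internal types
-/

namespace Pool.Agent.Helper672.ZFA

open FirstOrder FirstOrder.Language

universe u v w

section defs

variable {M : Type u} [L.Structure M]

/-- The function `f` is given by an element of the model (its graph). -/
def IntFun {a b : M} (f : El a → El b) : Prop :=
  ∃ g : M, ∀ (x : El a) (y : El b), f x = y ↔ ∃ p, IsOrdPair p x.1 y.1 ∧ Mem p g

/-- A Boolean algebra of the model: the operations are elements of the model. -/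
def IntBA (a : M) [BooleanAlgebra (El a)] : Prop :=
  IntOp (fun x y : El a => x ⊔ y) ∧ IntOp (fun x y : El a => x ⊓ y)

/-- Completeness in the model: every subset in the model has a supremum. -/
def CompleteIn (a : M) [BooleanAlgebra (El a)] : Prop :=
  ∀ s : M, ∃ x : El a, IsLUB {y : El a | Mem y.1 s} x

variable (M) in
/-- In the model, all complete Boolean algebras are injective. -/
def SIK : Prop :=
  ∀ (b : M) [BooleanAlgebra (El b)], IntBA b → CompleteIn b →
    ∀ (a : M) [BooleanAlgebra (El a)], IntBA a → ∀ (S : BooleanSubalgebra (El a)) (s : M),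
      (∀ x : El a, x ∈ S ↔ Mem x.1 s) → ∀ f : BoundedLatticeHom S (El b),
      (∃ t : M, ∀ (x : S) (y : El b), f x = y ↔ ∃ p, IsOrdPair p x.1.1 y.1 ∧ Mem p t) →
      ∃ g : BoundedLatticeHom (El a) (El b), IntFun g ∧ ∀ x : S, g x = f x

end defs

section transport

variable {M : Type u} [L.Structure M] [hM : IsModel M]

/-- Types and elements. -/
noncomputable def elEq (M : Type u) [L.Structure M] (α : Type v) [ITy M α] : α ≃ El (dom M α) :=
  Equiv.ofBijective (fun a => ⟨code a, code_mem_dom a⟩)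
    ⟨fun _ _ h => ITy.inj (Subtype.ext_iff.1 h), fun z => by
      obtain ⟨a, h⟩ := mem_dom.1 z.2
      exact ⟨a, Subtype.ext h⟩⟩

omit hM in
theorem elEq_val {α : Type v} [ITy M α] (a : α) : (elEq M α a).1 = code a := rfl

theorem isPair_iff_up {p x y : M} : IsPair p x y ↔ p = up x y := eq_up.symm

theorem isOrdPair_iff_op {p x y : M} : IsOrdPair p x y ↔ p = op x y := by
  constructor
  · rintro ⟨s, d, h1, h2, h3⟩
    rw [isPair_iff_up] at h1 h2 h3
    subst h1 h2
    exact h3
  · rintro rfl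
    exact ⟨_, _, isPair_iff_up.2 rfl, isPair_iff_up.2 rfl, isPair_iff_up.2 rfl⟩

theorem exists_pair_mem {x y g : M} : (∃ p, IsOrdPair p x y ∧ Mem p g) ↔ Mem (op x y) g := by
  constructor
  · rintro ⟨p, h1, h2⟩
    rw [isOrdPair_iff_op] at h1
    exact h1 ▸ h2
  · intro h
    exact ⟨_, isOrdPair_iff_op.2 rfl, h⟩

theorem intOp_of' {α β δ : Type*} [ITy M α] [ITy M β] [ITy M δ] {f : α → β → δ}
    (h : IntF M (fun q : α × β => f q.1 q.2))
    {F : El (dom M α) → El (dom M β) → El (dom M δ)}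
    (hF : ∀ x y, F (elEq M α x) (elEq M β y) = elEq M δ (f x y)) : IntOp F := by
  obtain ⟨s, hs⟩ := h
  refine ⟨s, fun x y z => ?_⟩
  obtain ⟨a, rfl⟩ := (elEq M α).surjective x
  obtain ⟨b, rfl⟩ := (elEq M β).surjective y
  obtain ⟨c, rfl⟩ := (elEq M δ).surjective z
  rw [hF, EmbeddingLike.apply_eq_iff_eq]
  refine (hs ((a, b), c)).symm.trans ⟨fun h1 => ?_, ?_⟩
  · exact ⟨_, _, isOrdPair_iff_op.2 rfl, isOrdPair_iff_op.2 rfl, h1⟩
  · rintro ⟨p, q, h1, h2, h3⟩
    rw [isOrdPair_iff_op] at h1 h2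
    subst h1 h2
    exact h3

theorem SIK.extend (h : SIK M) {A : Type v} {B : Type w} [ITy M A] [ITy M B] [BooleanAlgebra A]
    [BooleanAlgebra B] (hA : IntF M (fun q : A × A => q.1 ⊔ q.2))
    (hA' : IntF M (fun q : A × A => q.1 ⊓ q.2)) (hB : IntF M (fun q : B × B => q.1 ⊔ q.2))
    (hB' : IntF M (fun q : B × B => q.1 ⊓ q.2))
    (hc : ∀ s : IPow M B, ∃ x, IsLUB {y | y ∈ s} x) (S : BooleanSubalgebra A)
    (hS : Int M (fun x => x ∈ S)) (f : BoundedLatticeHom S B)
    (hf : Int M (fun q : A × B => ∃ h : q.1 ∈ S, f ⟨q.1, h⟩ = q.2)) :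
    ∃ g : BoundedLatticeHom A B, IntF M (fun x => g x) ∧ ∀ x : S, g x = f x := by
  let _ : BooleanAlgebra (El (dom M A)) := (elEq M A).symm.booleanAlgebra
  let _ : BooleanAlgebra (El (dom M B)) := (elEq M B).symm.booleanAlgebra
  have eA : ∀ x y : El (dom M A), x ≤ y ↔ (elEq M A).symm x ≤ (elEq M A).symm y := fun _ _ => Iff.rfl
  have eB : ∀ x y : El (dom M B), x ≤ y ↔ (elEq M B).symm x ≤ (elEq M B).symm y := fun _ _ => Iff.rfl
  let oA : A ≃o El (dom M A) := ⟨elEq M A, by intro a b; rw [eA]; simp⟩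
  let oB : B ≃o El (dom M B) := ⟨elEq M B, by intro a b; rw [eB]; simp⟩
  have hoA : ∀ x, oA x = elEq M A x := fun _ => rfl
  have hoB : ∀ x, oB x = elEq M B x := fun _ => rfl
  have i1 : IntBA (dom M A) := by
    refine ⟨intOp_of' hA fun x y => ?_, intOp_of' hA' fun x y => ?_⟩
    · exact (oA.map_sup x y).symm
    · exact (oA.map_inf x y).symm
  have i2 : IntBA (dom M B) := by
    refine ⟨intOp_of' hB fun x y => ?_, intOp_of' hB' fun x y => ?_⟩
    · exact (oB.map_sup x y).symm
    · exact (oB.map_inf x y).symm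
  have i3 : CompleteIn (dom M B) := by
    intro s
    have hi : Int M (fun x : B => Mem (code x) s) := ⟨s, fun _ => Iff.rfl⟩
    obtain ⟨x, hx⟩ := hc (sep M fun x : B => Mem (code x) s)
    refine ⟨oB x, ?_⟩
    have h1 : {y : El (dom M B) | Mem y.1 s} = oB '' {y | y ∈ sep M fun x : B => Mem (code x) s} := by
      ext y
      obtain ⟨z, rfl⟩ := oB.surjective y
      simp only [Set.mem_image, Set.mem_ofPred_eq, mem_sep hi, EmbeddingLike.apply_eq_iff_eq,
        exists_eq_right]
      rfl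
    rw [h1]
    exact oB.isLUB_image'.2 hx
  let S' : BooleanSubalgebra (El (dom M A)) := S.comap (oA.symm : BoundedLatticeHom _ _)
  have mS : ∀ x : A, oA x ∈ S' ↔ x ∈ S := fun x => by
    change oA.symm (oA x) ∈ S ↔ _
    rw [OrderIso.symm_apply_apply]
  let f' : BoundedLatticeHom S' (El (dom M B)) :=
    { toFun := fun x => oB (f ⟨oA.symm x.1, x.2⟩)
      map_sup' := fun x y => by
        rw [← oB.map_sup, ← map_sup f]
        refine congrArg (fun z => oB (f z)) (Subtype.ext ?_)
        exact oA.symm.map_sup x.1 y.1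
      map_inf' := fun x y => by
        rw [← oB.map_inf, ← map_inf f]
        refine congrArg (fun z => oB (f z)) (Subtype.ext ?_)
        exact oA.symm.map_inf x.1 y.1
      map_top' := by
        rw [← oB.map_top, ← map_top f]
        refine congrArg (fun z => oB (f z)) (Subtype.ext ?_)
        exact oA.symm.map_top
      map_bot' := by
        rw [← oB.map_bot, ← map_bot f]
        refine congrArg (fun z => oB (f z)) (Subtype.ext ?_)
        exact oA.symm.map_bot }
  obtain ⟨s, hs⟩ := hS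
  obtain ⟨t, ht⟩ := hf
  obtain ⟨g, ⟨r, hr⟩, hg⟩ := h (dom M B) i2 i3 (dom M A) i1 S' s (fun x => by
    obtain ⟨x, rfl⟩ := oA.surjective x
    rw [mS]
    exact (hs x).symm) f' ⟨t, fun x y => by
      obtain ⟨x, hx⟩ := x
      obtain ⟨x, rfl⟩ := oA.surjective x
      obtain ⟨y, rfl⟩ := oB.surjective y
      rw [exists_pair_mem]
      refine Iff.trans ?_ (ht (x, y)).symm
      have hx' : x ∈ S := (mS x).1 hx
      have h1 : f' ⟨oA x, hx⟩ = oB (f ⟨x, hx'⟩) := by
        change oB (f ⟨oA.symm (oA x), _⟩) = _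
        congr 2
        exact Subtype.ext (oA.symm_apply_apply x)
      rw [h1, EmbeddingLike.apply_eq_iff_eq]
      exact ⟨fun h => ⟨hx', h⟩, fun ⟨_, h⟩ => h⟩⟩
  let g' : BoundedLatticeHom A B :=
    { toFun := fun x => oB.symm (g (oA x))
      map_sup' := fun x y => by rw [oA.map_sup, map_sup, oB.symm.map_sup]
      map_inf' := fun x y => by rw [oA.map_inf, map_inf, oB.symm.map_inf]
      map_top' := by rw [oA.map_top, map_top, oB.symm.map_top]
      map_bot' := by rw [oA.map_bot, map_bot, oB.symm.map_bot] }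
  have hg' : ∀ x, g' x = oB.symm (g (oA x)) := fun _ => rfl
  refine ⟨g', ⟨r, fun q => ?_⟩, fun x => ?_⟩
  · obtain ⟨x, y⟩ := q
    have h1 := hr (oA x) (oB y)
    rw [exists_pair_mem] at h1
    refine Iff.trans h1.symm ?_
    change _ ↔ g' x = y
    rw [hg', OrderIso.symm_apply_eq]
  · rw [hg']
    have hx : oA x.1 ∈ S' := (mS x.1).2 x.2
    have h1 := hg ⟨oA x.1, hx⟩
    rw [show (((⟨oA x.1, hx⟩ : S') : El (dom M A))) = oA x.1 from rfl] at h1
    rw [h1]
    change oB.symm (oB (f ⟨oA.symm (oA x.1), _⟩)) = _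
    rw [OrderIso.symm_apply_apply]
    congr 1
    exact Subtype.ext (oA.symm_apply_apply x.1)

end transport

end Pool.Agent.Helper672.ZFA
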