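import Pool.Agent.Helper672.SIK.Cohen

/-!
# Injectivity implies multiple choice
-/

namespace Pool.Agent.Helper672.ZFA

open FirstOrder FirstOrder.Language
open scoped symmDiff

universe u u₁ u₂ u₃ u₄

theorem symmDiff_swap {α : Type*} [BooleanAlgebra α] {a b c d : α} (h : a ∆ b = c ∆ d) :
    a ∆ c = b ∆ d := by
  have h1 : a ∆ c = (a ∆ b) ∆ (b ∆ c) := by
    rw [symmDiff_assoc, symmDiff_symmDiff_cancel_left]
  rw [h1, h, symmDiff_comm c d, symmDiff_comm b c, symmDiff_assoc, symmDiff_symmDiff_cancel_left,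
    symmDiff_comm]

theorem symmDiff_compl_right' {α : Type*} [BooleanAlgebra α] (a b : α) :
    a ∆ bᶜ = (a ∆ b)ᶜ := by
  rw [← hnot_eq_compl, ← hnot_eq_compl, ← symmDiff_top, ← symmDiff_top, symmDiff_assoc]

variable {M : Type u} [L.Structure M] [hM : IsModel M]
variable {γ : Type u₃} [ITy M γ]
variable {J : Type u₁} {K : Type u₂} [ITy M J] [ITy M K] {κ : J → K}

instance factInv (hκ : IntF M κ) : Fact (Int M (fun U : RO M (Cnd M J) => U ∈ inv hκ)) := ⟨by
  have h : Int M (fun U : RO M (Cnd M J) => ∀ k, act hκ k U = U) :=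
    Int.all (Int.eq (IntF.act hκ IntF.snd' IntF.fst') IntF.fst')
  exact h⟩

theorem IntF.tau {j : γ → J} (hj : IntF M j) : IntF M (fun c => tau M (j c)) := by
  refine IntF.mk ?_
  have h : IntF M (fun c => ZFA.sep M fun p : Cnd M J => (j c, true) ∈ p.1) := by (with_reducible apply IntF.sep; with_reducible apply Int.mem; with_reducible apply IntF.pair; with_reducible ((refine IntF.comp ?_ ?_); assumption); with_reducible exact IntF.fst'; with_reducible exact IntF.const _; with_reducible apply IntF.val; with_reducible exact IntF.snd')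
  exact h

theorem exists_retract (h : SIK M) (hκ : IntF M κ) :
    ∃ g : BoundedLatticeHom (RO M (Cnd M J)) (inv hκ), IntF M (fun U => g U) ∧
      ∀ U : inv hκ, g U = U := by
  refine h.extend RO.int_sup RO.int_inf ?_ ?_ ?_ (inv hκ) (factInv hκ).out
    (BoundedLatticeHom.id (inv hκ)) ?_
  · refine IntF.mk ?_
    have h1 : IntF M (fun q : (inv hκ) × (inv hκ) => q.1.1 ⊔ q.2.1) :=
      IntF.comp₂ (p := fun a b : RO M (Cnd M J) => a ⊔ b) RO.int_sup (by (with_reducible apply IntF.val; with_reducible exact IntF.fst')) (by (with_reducible apply IntF.val; with_reducible exact IntF.snd'))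
    exact h1
  · refine IntF.mk ?_
    have h1 : IntF M (fun q : (inv hκ) × (inv hκ) => q.1.1 ⊓ q.2.1) :=
      IntF.comp₂ (p := fun a b : RO M (Cnd M J) => a ⊓ b) RO.int_inf (by (with_reducible apply IntF.val; with_reducible exact IntF.fst')) (by (with_reducible apply IntF.val; with_reducible exact IntF.snd'))
    exact h1
  · intro s
    have hv : IntF M (fun x : inv hκ => x.1) := IntF.val'
    obtain ⟨U, -, h1, h2⟩ := RO.exists_lub (iimage (fun x : inv hκ => x.1) s)
    have h3 : ∀ k, U ≤ act hκ k U := by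
      intro k
      refine h2 _ fun V hV => ?_
      have h4 := h1 V hV
      rw [mem_iimage hv] at hV
      obtain ⟨x, _, rfl⟩ := hV
      have h5 := (actIso hκ k).monotone h4
      rw [actIso_apply, actIso_apply, x.2 k] at h5
      exact h5
    have h4 : U ∈ inv hκ := by
      intro k
      refine le_antisymm ?_ (h3 k)
      have h5 := (actIso hκ k).monotone (h3 k)
      rw [actIso_apply, actIso_apply, act_act] at h5
      exact h5
    refine ⟨⟨U, h4⟩, fun x hx => ?_, fun x hx => ?_⟩
    · exact h1 x.1 ((mem_iimage hv).2 ⟨x, hx, rfl⟩)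
    · refine h2 x.1 fun V hV => ?_
      rw [mem_iimage hv] at hV
      obtain ⟨y, hy, rfl⟩ := hV
      exact hx hy
  · have h1 : Int M (fun q : RO M (Cnd M J) × (inv hκ) => q.1 = q.2.1) := by (with_reducible apply Int.eq; with_reducible exact IntF.fst'; with_reducible apply IntF.val; with_reducible exact IntF.snd')
    refine h1.congr fun q => ?_
    constructor
    · intro h2
      exact ⟨by rw [h2]; exact q.2.2, Subtype.ext h2⟩
    · rintro ⟨h2, h3⟩
      exact congrArg Subtype.val h3

section core

variable (hκ : IntF M κ) (g : BoundedLatticeHom (RO M (Cnd M J)) (inv hκ))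

/-- The sign. -/
noncomputable def rho (j : J) : RO M (Cnd M J) := (g (tau M j)).1 ∆ tau M j

variable {hκ g}

theorem IntF.rho (hg : IntF M (fun U => g U)) {j : γ → J} (hj : IntF M j) :
    IntF M (fun c => rho hκ g (j c)) := by
  have h1 : IntF M (fun c => (g (ZFA.tau M (j c))).1) := IntF.val (hg.comp (IntF.tau hj))
  have hs : IntF M (fun q : RO M (Cnd M J) × RO M (Cnd M J) => q.1 \ q.2) := by
    have h2 : IntF M (fun q : RO M (Cnd M J) × RO M (Cnd M J) => q.1 ⊓ q.2ᶜ) :=
      IntF.comp₂ (p := fun a b : RO M (Cnd M J) => a ⊓ b) RO.int_inf IntF.fst'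
        (RO.int_compl.comp IntF.snd')
    exact h2
  have h2 : IntF M (fun q : RO M (Cnd M J) × RO M (Cnd M J) => q.1 ∆ q.2) :=
    IntF.comp₂ (p := fun a b : RO M (Cnd M J) => a ⊔ b) RO.int_sup hs
      (IntF.comp₂ (p := fun a b : RO M (Cnd M J) => a \ b) hs IntF.snd' IntF.fst')
  exact IntF.comp₂ (p := fun a b : RO M (Cnd M J) => a ∆ b) h2 h1 (IntF.tau hj)

theorem tau_symmDiff_mem {i j : J} (h : κ i = κ j) : tau M i ∆ tau M j ∈ inv hκ := by
  intro k
  rw [← actIso_apply, map_symmDiff', actIso_apply, actIso_apply]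
  by_cases hk : κ i = k
  · subst hk
    rw [act_tau]
    rw [h, act_tau, compl_symmDiff_compl]
  · rw [act_tau_ne hκ hk, act_tau_ne hκ (h ▸ hk)]

theorem rho_eq (hg : ∀ U : inv hκ, g U = U) {i j : J} (h : κ i = κ j) :
    rho hκ g i = rho hκ g j := by
  have h1 := hg ⟨_, tau_symmDiff_mem (hκ := hκ) h⟩
  have h2 : (g (tau M i)).1 ∆ (g (tau M j)).1 = tau M i ∆ tau M j := by
    have h3 : (g (tau M i ∆ tau M j)).1 = tau M i ∆ tau M j := congrArg Subtype.val h1
    rw [map_symmDiff'] at h3
    exact h3
  exact symmDiff_swap h2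

theorem act_rho (j : J) : act hκ (κ j) (rho hκ g j) = (rho hκ g j)ᶜ := by
  unfold rho
  rw [← actIso_apply, map_symmDiff', actIso_apply, actIso_apply, (g (tau M j)).2 (κ j), act_tau,
    symmDiff_compl_right']

/-- The condition `p` decides the sign at `k`. -/
def Dec (hκ : IntF M κ) (g : BoundedLatticeHom (RO M (Cnd M J)) (inv hκ)) (k : K)
    (p : Cnd M J) : Prop :=
  ∃ j, κ j = k ∧ (p ∈ rho hκ g j ∨ p ∈ (rho hκ g j)ᶜ)

theorem Int.dec (hg : IntF M (fun U => g U)) {k : γ → K} {p : γ → Cnd M J} (hk : IntF M k)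
    (hp : IntF M p) : Int M (fun c => Dec hκ g (k c) (p c)) := by
  have h1 : IntF M (fun q : γ × J => (rho hκ g q.2).1) := IntF.val (IntF.rho hg IntF.snd')
  have h2 : IntF M (fun q : γ × J => ((rho hκ g q.2)ᶜ).1) :=
    IntF.val (RO.int_compl.comp (IntF.rho hg IntF.snd'))
  have h3 : IntF M (fun q : γ × J => κ q.2) := hκ.comp IntF.snd'
  have h : Int M (fun c => ∃ j, κ j = k c ∧ (p c ∈ (rho hκ g j).1 ∨ p c ∈ ((rho hκ g j)ᶜ).1)) := by
    refine Int.ex (Int.and (Int.eq h3 ?_) (Int.or (Int.mem ?_ h1) (Int.mem ?_ h2)))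
    · (with_reducible ((refine IntF.comp ?_ ?_); assumption); with_reducible exact IntF.fst')
    · (with_reducible ((refine IntF.comp ?_ ?_); assumption); with_reducible exact IntF.fst')
    · (with_reducible ((refine IntF.comp ?_ ?_); assumption); with_reducible exact IntF.fst')
  exact h

theorem isCnd_union {p q : IPow M (J × Bool)} (hp : IsCnd p) (hq : IsCnd q)
    (h : ∀ j b, (j, b) ∈ p → (j, !b) ∈ q → False) : IsCnd (p ∪ q) := by
  refine ⟨hp.1.union hq.1, fun j hj => ?_⟩
  rw [mem_union, mem_union] at hj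
  rcases hj.1 with h1 | h1 <;> rcases hj.2 with h2 | h2
  · exact hp.2 j ⟨h1, h2⟩
  · exact h j true h1 h2
  · exact h j false h2 h1
  · exact hq.2 j ⟨h1, h2⟩

theorem dec_star (hg : ∀ U : inv hκ, g U = U) {k : K} {p p' : Cnd M J} (hp : Dec hκ g k p)
    (hp' : Dec hκ g k p') (hc : ∀ j b, (j, b) ∈ p.1 → (j, !b) ∈ p'.1 → κ j = k) :
    ∃ j, κ j = k ∧ (∃ b, (j, b) ∈ p.1) ∧ ∃ b, (j, b) ∈ p'.1 := by
  by_contra hcon
  push Not at hcon
  obtain ⟨i, rfl, hi⟩ := hp
  obtain ⟨i', hi', hi''⟩ := hp'
  rw [rho_eq hg hi'] at hi''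
  have c1 : IsCnd (p.1 ∪ p'.1) := isCnd_union p.2 p'.2 fun j b h1 h2 =>
    hcon j (hc j b h1 h2) ⟨b, h1⟩ _ h2
  have c2 : IsCnd (p.1 ∪ (cfl hκ (κ i) p').1) := by
    refine isCnd_union p.2 (cfl hκ (κ i) p').2 fun j b h1 h2 => ?_
    change _ ∈ flp κ (κ i) p'.1 at h2
    rw [mem_flp hκ] at h2
    unfold fl at h2
    by_cases h3 : κ j = κ i
    · simp only [h3, if_true, Bool.not_not] at h2
      exact hcon j h3 ⟨b, h1⟩ _ h2
    · simp only [h3, if_false] at h2
      exact h3 (hc j b h1 h2)
  have q1 : ∀ U : RO M (Cnd M J), p ∈ U → p' ∈ Uᶜ → False := fun U h1 h2 =>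
    RO.mem_compl.1 (RO.mono (q := ⟨_, c1⟩) (fun x hx => mem_union.2 (Or.inr hx)) h2) _ le_rfl
      (RO.mono (q := ⟨_, c1⟩) (fun x hx => mem_union.2 (Or.inl hx)) h1)
  have q2 : ∀ U : RO M (Cnd M J), p ∈ U → cfl hκ (κ i) p' ∈ Uᶜ → False := fun U h1 h2 =>
    RO.mem_compl.1 (RO.mono (q := ⟨_, c2⟩) (fun x hx => mem_union.2 (Or.inr hx)) h2) _ le_rfl
      (RO.mono (q := ⟨_, c2⟩) (fun x hx => mem_union.2 (Or.inl hx)) h1)
  have h3 : ∀ U : RO M (Cnd M J), p' ∈ U → cfl hκ (κ i) p' ∈ act hκ (κ i) U := fun U hU => by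
    rw [mem_act, cfl_cfl]
    exact hU
  rcases hi with hi | hi
  · rcases hi'' with h4 | h4
    · have h5 := h3 _ h4
      rw [act_rho] at h5
      exact q2 _ hi h5
    · exact q1 _ hi h4
  · rcases hi'' with h4 | h4
    · refine q1 _ hi ?_
      rwa [compl_compl]
    · have h5 := h3 _ h4
      rw [← actIso_apply, map_compl', actIso_apply, act_rho] at h5
      exact q2 _ hi h5

/-- All truth values negated. -/
noncomputable def neg (p : IPow M (J × Bool)) : IPow M (J × Bool) := sep M fun q => (q.1, !q.2) ∈ p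

omit hM in
theorem mem_neg [IsModel M] {p : IPow M (J × Bool)} {q : J × Bool} :
    q ∈ neg p ↔ (q.1, !q.2) ∈ p := by
  unfold neg
  rw [mem_sep (by (with_reducible apply Int.mem; with_reducible apply IntF.pair; with_reducible exact IntF.fst'; with_reducible apply IntF.not; with_reducible exact IntF.snd'; with_reducible exact IntF.const _))]

/-- `n` is the least size of a deciding condition. -/
def LeastSz (hκ : IntF M κ) (g : BoundedLatticeHom (RO M (Cnd M J)) (inv hκ)) (k : K)
    (n : INat M) : Prop :=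
  (∃ p, Dec hκ g k p ∧ Sz n p.1) ∧ ∀ m, (∃ p, Dec hκ g k p ∧ Sz m p.1) → n ≤ m

/-- The family of the sets `p ∪ flip p` for deciding conditions of size at most `n`. -/
noncomputable def famA (hκ : IntF M κ) (g : BoundedLatticeHom (RO M (Cnd M J)) (inv hκ)) (k : K)
    (n : INat M) : IPow M (IPow M (J × Bool)) :=
  sep M fun R => ∃ p : Cnd M J, Dec hκ g k p ∧ Sz n p.1 ∧ R = p.1 ∪ flp κ k p.1

theorem Int.leastSz (hg : IntF M (fun U => g U)) {k : γ → K} {n : γ → INat M} (hk : IntF M k)
    (hn : IntF M n) : Int M (fun c => LeastSz hκ g (k c) (n c)) := by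
  have h1 : Int M (fun q : K × Cnd M J => Dec hκ g q.1 q.2) := Int.dec hg IntF.fst' IntF.snd'
  unfold LeastSz
  (with_reducible apply Int.and; with_reducible apply Int.ex; with_reducible apply Int.and; with_reducible ((refine Int.comp₂ ?_ ?_ ?_); assumption); with_reducible ((refine IntF.comp ?_ ?_); assumption); with_reducible exact IntF.fst'; with_reducible exact IntF.snd'; with_reducible apply Int.sz; with_reducible ((refine IntF.comp ?_ ?_); assumption); with_reducible exact IntF.fst'; with_reducible apply IntF.val; with_reducible exact IntF.snd'; with_reducible apply Int.all; with_reducible apply Int.imp; with_reducible apply Int.ex; with_reducible apply Int.and; with_reducible ((refine Int.comp₂ ?_ ?_ ?_); assumption); with_reducible ((refine IntF.comp ?_ ?_); assumption); with_reducible apply IntF.fst; with_reducible exact IntF.fst'; with_reducible exact IntF.snd'; with_reducible apply Int.sz; with_reducible apply IntF.snd; with_reducible exact IntF.fst'; with_reducible apply IntF.val; with_reducible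 exact IntF.snd'; with_reducible apply Int.leN; with_reducible ((refine IntF.comp ?_ ?_); assumption); with_reducible exact IntF.fst'; with_reducible exact IntF.snd')

theorem int_famA (hg : IntF M (fun U => g U)) {k : γ → K} {n : γ → INat M} (hk : IntF M k)
    (hn : IntF M n) : Int M (fun q : γ × IPow M (J × Bool) =>
      ∃ p : Cnd M J, Dec hκ g (k q.1) p ∧ Sz (n q.1) p.1 ∧ q.2 = p.1 ∪ flp κ (k q.1) p.1) := by
  have h1 : Int M (fun q : K × Cnd M J => Dec hκ g q.1 q.2) := Int.dec hg IntF.fst' IntF.snd'
  have h2 : IntF M (fun q : K × IPow M (J × Bool) => flp κ q.1 q.2) :=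
    IntF.flp hκ IntF.fst' IntF.snd'
  (with_reducible apply Int.ex; with_reducible apply Int.and; with_reducible ((refine Int.comp₂ ?_ ?_ ?_); assumption); with_reducible ((refine IntF.comp ?_ ?_); assumption); with_reducible apply IntF.fst; with_reducible exact IntF.fst'; with_reducible exact IntF.snd'; with_reducible apply Int.and; with_reducible apply Int.sz; with_reducible ((refine IntF.comp ?_ ?_); assumption); with_reducible apply IntF.fst; with_reducible exact IntF.fst'; with_reducible apply IntF.val; with_reducible exact IntF.snd'; with_reducible apply Int.eq; with_reducible apply IntF.snd; with_reducible exact IntF.fst'; with_reducible apply IntF.union; with_reducible apply IntF.val; with_reducible exact IntF.snd'; with_reducible ((refine IntF.comp₂ ?_ ?_ ?_); assumption); with_reducible ((refine IntF.comp ?_ ?_); assumption); with_reducible apply IntF.fst; with_reducible exact IntF.fst'; with_reducible apply IntF.val; with_reducible exact IntF.snd')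

theorem IntF.famA (hg : IntF M (fun U => g U)) {k : γ → K} {n : γ → INat M} (hk : IntF M k)
    (hn : IntF M n) : IntF M (fun c => famA hκ g (k c) (n c)) := by
  unfold ZFA.famA
  exact IntF.sep (int_famA hg hk hn)

theorem mem_famA (hg : IntF M (fun U => g U)) {k : K} {n : INat M} {R : IPow M (J × Bool)} :
    R ∈ famA hκ g k n ↔ ∃ p : Cnd M J, Dec hκ g k p ∧ Sz n p.1 ∧ R = p.1 ∪ flp κ k p.1 := by
  unfold famA
  have h1 : Int M (fun q : K × Cnd M J => Dec hκ g q.1 q.2) := Int.dec hg IntF.fst' IntF.snd'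
  have h2 : IntF M (fun q : K × IPow M (J × Bool) => flp κ q.1 q.2) :=
    IntF.flp hκ IntF.fst' IntF.snd'
  exact mem_sep (by (with_reducible apply Int.ex; with_reducible apply Int.and; with_reducible ((refine Int.comp₂ ?_ ?_ ?_); assumption); with_reducible exact IntF.const _; with_reducible exact IntF.snd'; with_reducible apply Int.and; with_reducible apply Int.sz; with_reducible exact IntF.const _; with_reducible apply IntF.val; with_reducible exact IntF.snd'; with_reducible apply Int.eq; with_reducible exact IntF.fst'; with_reducible apply IntF.union; with_reducible apply IntF.val; with_reducible exact IntF.snd'; with_reducible ((refine IntF.comp₂ ?_ ?_ ?_); assumption); with_reducible exact IntF.const _; with_reducible apply IntF.val; with_reducible exact IntF.snd'))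

/-- The canonical finite set. -/
def Can (hκ : IntF M κ) (g : BoundedLatticeHom (RO M (Cnd M J)) (inv hκ)) (k : K) (j : J) : Prop :=
  κ j = k ∧ ∃ n, LeastSz hκ g k n ∧ ∃ b, ∃ T : IPow M (J × Bool),
    (MinHit (famA hκ g k n) T ∧ Sz n T) ∧ (j, b) ∈ T

theorem Int.can (hg : IntF M (fun U => g U)) : Int M (fun q : K × J => Can hκ g q.1 q.2) := by
  have h1 : Int M (fun q : K × INat M => LeastSz hκ g q.1 q.2) :=
    Int.leastSz hg IntF.fst' IntF.snd'
  have h2 : IntF M (fun q : K × INat M => ZFA.famA hκ g q.1 q.2) :=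
    IntF.famA hg IntF.fst' IntF.snd'
  unfold Can
  (with_reducible apply Int.and; with_reducible apply Int.eq; with_reducible ((refine IntF.comp ?_ ?_); assumption); with_reducible exact IntF.snd'; with_reducible exact IntF.fst'; with_reducible apply Int.ex; with_reducible apply Int.and; with_reducible ((refine Int.comp₂ ?_ ?_ ?_); assumption); with_reducible apply IntF.fst; with_reducible exact IntF.fst'; with_reducible exact IntF.snd'; with_reducible apply Int.ex; with_reducible apply Int.ex; with_reducible apply Int.and; with_reducible apply Int.and; with_reducible apply Int.minHit; with_reducible ((refine IntF.comp₂ ?_ ?_ ?_); assumption); with_reducible apply IntF.fst; with_reducible apply IntF.fst; with_reducible apply IntF.fst; with_reducible exact IntF.fst'; with_reducible apply IntF.snd; with_reducible apply IntF.fst; with_reducible exact IntF.fst'; with_reducible exact IntF.snd'; with_reducible apply Int.sz; with_reducible apply IntF.snd; with_reducible apply IntF.fst; with_reducible exact IntF.fst';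 with_reducible exact IntF.snd'; with_reducible apply Int.mem; with_reducible apply IntF.pair; with_reducible apply IntF.snd; with_reducible apply IntF.fst; with_reducible apply IntF.fst; with_reducible exact IntF.fst'; with_reducible apply IntF.snd; with_reducible exact IntF.fst'; with_reducible exact IntF.snd')

theorem Sz.fin {α : Type*} [ITy M α] {n : INat M} {s : IPow M α} (h : Sz n s) : IFin s := by
  suffices h' : ∀ s : IPow M α, Sz n s → IFin s from h' s h
  clear h s
  refine INat.ind (p := fun n : INat M => ∀ s : IPow M α, Sz n s → IFin s) (by (with_reducible apply Int.all; with_reducible apply Int.imp; with_reducible apply Int.sz; with_reducible exact IntF.fst'; with_reducible exact IntF.snd'; with_reducible apply Int.fin; with_reducible exact IntF.snd')) ?_ ?_ n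
  · intro s hs
    refine IFin.empty.subset fun x hx => (hs.zero hx).elim
  · intro n ih s hs
    by_cases h : ∃ r, r ∈ s
    · obtain ⟨r, hr⟩ := h
      refine ((ih _ (hs.erase hr)).insert r).subset fun x hx => ?_
      rw [mem_insert, mem_sdiff, mem_singleton]
      by_cases hxr : x = r
      · exact Or.inl hxr
      · exact Or.inr ⟨hx, hxr⟩
    · push Not at h
      exact IFin.empty.subset fun x hx => absurd hx (h x)

theorem exists_dec (j : J) : ∃ p, Dec hκ g (κ j) p := by
  by_cases h : ∃ p, p ∈ rho hκ g j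
  · obtain ⟨p, hp⟩ := h
    exact ⟨p, j, rfl, Or.inl hp⟩
  · push Not at h
    exact ⟨⟨∅, IFin.empty, fun j hj => absurd hj.1 (by simp)⟩, j, rfl,
      Or.inr (RO.mem_compl.2 fun q _ => h q)⟩

theorem can_finite (hg : IntF M (fun U => g U)) (k : K) : IFin (sep M fun j => Can hκ g k j) := by
  have hi : Int M (fun j => Can hκ g k j) := (Int.can hg).slice k
  by_cases hn : ∃ n, LeastSz hκ g k n
  · obtain ⟨n, hn⟩ := hn
    have hf : IntF M (fun q : J × Bool => q.1) := IntF.fst'
    have h1 : IFin (sep M fun T : IPow M (J × Bool) => MinHit (famA hκ g k n) T ∧ Sz n T) :=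
      minHit_finite (fun R hR => by
        obtain ⟨p, -, hp, rfl⟩ := (mem_famA hg).1 hR
        exact p.2.1.union (isCnd_flp hκ k p.2).1) n
    have h2 : IFin (isUnion (sep M fun T : IPow M (J × Bool) =>
        MinHit (famA hκ g k n) T ∧ Sz n T)) := by
      refine h1.isUnion fun T hT => ?_
      rw [mem_sep (by (with_reducible apply Int.and; with_reducible apply Int.minHit; with_reducible exact IntF.const _; with_reducible exact IntF.id; with_reducible apply Int.sz; with_reducible exact IntF.const _; with_reducible exact IntF.id))] at hT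
      exact hT.2.fin
    refine (h2.image hf).subset fun j hj => ?_
    rw [mem_sep hi] at hj
    obtain ⟨-, m, hm, b, T, hT, h3⟩ := hj
    have hmn : m = n := le_antisymm (hm.2 n hn.1) (hn.2 m hm.1)
    subst hmn
    rw [mem_iimage hf]
    refine ⟨(j, b), mem_isUnion.2 ⟨T, ?_, h3⟩, rfl⟩
    rw [mem_sep (by (with_reducible apply Int.and; with_reducible apply Int.minHit; with_reducible exact IntF.const _; with_reducible exact IntF.id; with_reducible apply Int.sz; with_reducible exact IntF.const _; with_reducible exact IntF.id))]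
    exact hT
  · refine IFin.empty.subset fun j hj => ?_
    rw [mem_sep hi] at hj
    obtain ⟨-, n, h, -⟩ := hj
    exact absurd ⟨n, h⟩ hn

theorem can_exists (hg : IntF M (fun U => g U)) (hg' : ∀ U : inv hκ, g U = U) {k : K}
    (hk : ∃ j, κ j = k) : ∃ j, Can hκ g k j := by
  obtain ⟨j₀, rfl⟩ := hk
  set k := κ j₀ with hkdef
  have hD : Int M (fun q : K × Cnd M J => Dec hκ g q.1 q.2) := Int.dec hg IntF.fst' IntF.snd'
  have hi : Int M (fun m : INat M => ∃ p, Dec hκ g k p ∧ Sz m p.1) := by (with_reducible apply Int.ex; with_reducible apply Int.and; with_reducible ((refine Int.comp₂ ?_ ?_ ?_); assumption); with_reducible ((refine IntF.comp ?_ ?_); assumption); with_reducible exact IntF.const _; with_reducible exact IntF.snd'; with_reducible apply Int.sz; with_reducible exact IntF.fst'; with_reducible apply IntF.val; with_reducible exact IntF.snd')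
  obtain ⟨n, hn⟩ := INat.least hi (by
    obtain ⟨p, hp⟩ := exists_dec (hκ := hκ) (g := g) j₀
    obtain ⟨n, hn⟩ := p.2.1.sz
    exact ⟨n, p, hp, hn⟩)
  have hn' : LeastSz hκ g k n := hn
  obtain ⟨p, hp, hpn⟩ := hn.1
  have hno : IntF M (fun q : J × Bool => (q.1, !q.2)) := by (with_reducible apply IntF.pair; with_reducible exact IntF.fst'; with_reducible apply IntF.not; with_reducible exact IntF.snd')
  have hninj : Function.Injective (fun q : J × Bool => (q.1, !q.2)) := by
    rintro ⟨a, b⟩ ⟨c, d⟩ h
    obtain ⟨h1, h2⟩ := Prod.ext_iff.1 h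
    dsimp only at h1 h2
    exact Prod.ext h1 (Bool.not_inj h2)
  have hnegsz : Sz n (neg p.1) := hpn.preimage hno hninj fun x hx => mem_neg.1 hx
  have hhit : Hits (famA hκ g k n) (neg p.1) := by
    intro R hR
    obtain ⟨p', hp', -, rfl⟩ := (mem_famA hg).1 hR
    by_cases hc : ∀ j b, (j, b) ∈ p'.1 → (j, !b) ∈ p.1 → κ j = k
    · obtain ⟨j, h1, ⟨b, h2⟩, b', h3⟩ := dec_star hg' hp' hp hc
      refine ⟨(j, !b'), mem_union.2 ?_, mem_neg.2 (by simpa using h3)⟩
      by_cases hbb : b = !b'
      · exact Or.inl (hbb ▸ h2)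
      · refine Or.inr ((mem_flp hκ).2 ?_)
        unfold fl
        have h4 : b = b' := by
          revert hbb
          cases b <;> cases b' <;> simp
        simp only [h1, if_true, Bool.not_not]
        rwa [← h4]
    · push Not at hc
      obtain ⟨j, b, h1, h2, -⟩ := hc
      exact ⟨(j, b), mem_union.2 (Or.inl h1), mem_neg.2 h2⟩
  obtain ⟨T, hT, hmin⟩ := exists_minHit hnegsz.fin hhit
  obtain ⟨⟨j, b⟩, h1, h2⟩ := hmin.1 _ ((mem_famA hg).2 ⟨p, hp, hpn, rfl⟩)
  have h3 := mem_neg.1 (hT _ h2)
  have h5 : ∀ c, (j, c) ∈ p.1 → (j, !c) ∈ p.1 → False := by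
    intro c h4 h5
    cases c
    · exact p.2.2 j ⟨h5, h4⟩
    · exact p.2.2 j ⟨h4, h5⟩
  have h6 : κ j = k := by
    rcases mem_union.1 h1 with h1 | h1
    · exact (h5 b h1 h3).elim
    · rw [mem_flp hκ] at h1
      unfold fl at h1
      by_contra h4
      simp only [h4, if_false] at h1
      exact h5 b h1 h3
  exact ⟨j, h6, n, hn', b, T, ⟨hmin, hnegsz.subset hT⟩, h2⟩

end core

/-- Multiple choice for the fibres of an internal map. -/
theorem SIK.mc (h : SIK M) {κ : J → K} (hκ : IntF M κ) :
    ∃ C : IFun M K (IPow M J), ∀ k, (∃ j, κ j = k) →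
      IFin (C k) ∧ (∃ j, j ∈ C k) ∧ ∀ j, j ∈ C k → κ j = k := by
  obtain ⟨g, hg, hg'⟩ := exists_retract h hκ
  have hC : IntF M (fun k : K => sep M fun j => Can hκ g k j) := IntF.sep (Int.can hg)
  refine ⟨⟨_, hC⟩, fun k hk => ?_⟩
  have hi : Int M (fun j => Can hκ g k j) := (Int.can hg).slice k
  change IFin (sep M fun j => Can hκ g k j) ∧ (∃ j, j ∈ sep M fun j => Can hκ g k j) ∧
    ∀ j, j ∈ (sep M fun j => Can hκ g k j) → κ j = k
  refine ⟨can_finite hg k, ?_, fun j hj => ?_⟩
  · obtain ⟨j, hj⟩ := can_exists hg hg' hk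
    exact ⟨j, (mem_sep hi).2 hj⟩
  · exact ((mem_sep hi).1 hj).1

end Pool.Agent.Helper672.ZFA
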