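import Pool.Agent.Helper672.SIK.Mult

/-!
# Injectivity implies the existence of linear orders
-/

namespace Pool.Agent.Helper672.ZFA

open FirstOrder FirstOrder.Language

universe u u₁ u₂ u₃ u₄

variable {M : Type u} [L.Structure M] [hM : IsModel M]
variable {γ : Type u₃} [ITy M γ]

/-- A type with the discrete order. -/
def Dsc (R : Type u₁) : Type u₁ := R

/-- The underlying element. -/
def Dsc.un {R : Type u₁} (r : Dsc R) : R := r

noncomputable instance {R : Type u₁} [h : ITy M R] : ITy M (Dsc R) := h

theorem IntF.un {R : Type u₁} [ITy M R] {f : γ → Dsc R} (hf : IntF M f) :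
    IntF M (fun c => (f c).un) := hf

instance {R : Type u₁} : Preorder (Dsc R) where
  le a b := a = b
  le_refl _ := rfl
  le_trans _ _ _ := Eq.trans

instance {R : Type u₁} [ITy M R] : ILe M (Dsc R) := ⟨Int.eq IntF.fst' IntF.snd'⟩

theorem isReg_dsc {R : Type u₁} [ITy M R] (U : IPow M (Dsc R)) : IsReg U := by
  refine ⟨fun p q hqp hp => ?_, fun p hp => ?_⟩
  · have h : q = p := hqp
    rwa [h]
  · obtain ⟨r, hr, h⟩ := hp p rfl
    have h1 : r = p := hr
    rwa [h1] at h

variable {X : Type u₁} [ITy M X]

/-- The filter of all sets of relations containing all linear orders of large finite sets. -/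
def Flt (U : RO M (Dsc (IPow M (X × X)))) : Prop :=
  ∃ P : IPow M X, IFin P ∧ ∀ r : Dsc (IPow M (X × X)), IsLO r.un → P ⊆ fld r.un → r ∈ U.1

theorem Int.flt {U : γ → RO M (Dsc (IPow M (X × X)))} (hU : IntF M U) :
    Int M (fun c => Flt (U c)) := by
  unfold Flt
  (with_reducible apply Int.ex; with_reducible apply Int.and; with_reducible apply Int.fin; with_reducible exact IntF.snd'; with_reducible apply Int.all; with_reducible apply Int.imp; with_reducible apply Int.isLO; with_reducible apply IntF.un; with_reducible exact IntF.snd'; with_reducible apply Int.imp; with_reducible apply Int.subset; with_reducible apply IntF.snd; with_reducible exact IntF.fst'; with_reducible apply IntF.fld; with_reducible apply IntF.un; with_reducible exact IntF.snd'; with_reducible apply Int.mem; with_reducible exact IntF.snd'; with_reducible apply IntF.val; with_reducible ((refine IntF.comp ?_ ?_); assumption); with_reducible apply IntF.fst; with_reducible exact IntF.fst')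

theorem Flt.mono {U V : RO M (Dsc (IPow M (X × X)))} (h : Flt U) (hUV : U ≤ V) : Flt V := by
  obtain ⟨P, hP, h1⟩ := h
  exact ⟨P, hP, fun r hr hr' => hUV r (h1 r hr hr')⟩

theorem Flt.inf {U V : RO M (Dsc (IPow M (X × X)))} (h : Flt U) (h' : Flt V) : Flt (U ⊓ V) := by
  obtain ⟨P, hP, h1⟩ := h
  obtain ⟨P', hP', h1'⟩ := h'
  refine ⟨P ∪ P', hP.union hP', fun r hr hr' => ?_⟩
  exact RO.mem_inf.2 ⟨h1 r hr fun x hx => hr' x (mem_union.2 (Or.inl hx)),
    h1' r hr fun x hx => hr' x (mem_union.2 (Or.inr hx))⟩

theorem not_flt_bot : ¬ Flt (⊥ : RO M (Dsc (IPow M (X × X)))) := by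
  rintro ⟨P, hP, h⟩
  have h0 : IsLO (∅ : IPow M (X × X)) := by
    refine ⟨?_, ?_, ?_, ?_, ?_⟩
    · exact IFin.empty.subset fun x hx => absurd (mem_fld.1 hx) (by simp)
    all_goals simp
  obtain ⟨r, hr, h1, -⟩ := h0.extend hP
  exact RO.mem_bot.1 (h r hr (fun x hx => by
    change x ∈ fld r
    rw [h1]
    exact mem_union.2 (Or.inr hx)))

theorem flt_top : Flt (⊤ : RO M (Dsc (IPow M (X × X)))) :=
  ⟨∅, IFin.empty, fun _ _ _ => RO.mem_top.2 trivial⟩

variable (M X) in
/-- The subalgebra generated by the filter. -/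
noncomputable def FltAlg : BooleanSubalgebra (RO M (Dsc (IPow M (X × X)))) where
  carrier := {U | Flt U ∨ Flt Uᶜ}
  supClosed' := by
    rintro U (hU | hU) V (hV | hV)
    · exact Or.inl (hU.mono le_sup_left)
    · exact Or.inl (hU.mono le_sup_left)
    · exact Or.inl (hV.mono le_sup_right)
    · refine Or.inr ?_
      rw [compl_sup]
      exact hU.inf hV
  infClosed' := by
    rintro U (hU | hU) V (hV | hV)
    · exact Or.inl (hU.inf hV)
    · refine Or.inr (hV.mono ?_)
      rw [compl_inf]
      exact le_sup_right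
    · refine Or.inr (hU.mono ?_)
      rw [compl_inf]
      exact le_sup_left
    · refine Or.inr (hU.mono ?_)
      rw [compl_inf]
      exact le_sup_left
  compl_mem' := by
    rintro U (hU | hU)
    · refine Or.inr ?_
      rwa [compl_compl]
    · exact Or.inl hU
  bot_mem' := by
    refine Or.inr ?_
    rw [compl_bot]
    exact flt_top

theorem not_flt_compl {U : RO M (Dsc (IPow M (X × X)))} (h : Flt U) (h' : Flt Uᶜ) : False := by
  have h1 := h.inf h'
  rw [inf_compl_self] at h1
  exact not_flt_bot h1

open Classical in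
/-- The two valued homomorphism. -/
noncomputable def fltHom : BoundedLatticeHom (FltAlg M X) Bool where
  toFun U := decide (Flt U.1)
  map_sup' := by
    rintro ⟨U, hU⟩ ⟨V, hV⟩
    change decide (Flt (U ⊔ V)) = (decide (Flt U) || decide (Flt V))
    rw [← Bool.decide_or, decide_eq_decide]
    constructor
    · intro h
      by_contra hcon
      push Not at hcon
      have h1 := hU.resolve_left hcon.1
      have h2 := hV.resolve_left hcon.2
      have h3 := h1.inf h2
      rw [← compl_sup] at h3
      exact not_flt_compl h h3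
    · rintro (h | h)
      · exact h.mono le_sup_left
      · exact h.mono le_sup_right
  map_inf' := by
    rintro ⟨U, hU⟩ ⟨V, hV⟩
    change decide (Flt (U ⊓ V)) = (decide (Flt U) && decide (Flt V))
    rw [← Bool.decide_and, decide_eq_decide]
    constructor
    · intro h
      exact ⟨h.mono inf_le_left, h.mono inf_le_right⟩
    · rintro ⟨h, h'⟩
      exact h.inf h'
  map_top' := by
    change decide (Flt (⊤ : RO M (Dsc (IPow M (X × X))))) = true
    exact decide_eq_true flt_top
  map_bot' := by
    change decide (Flt (⊥ : RO M (Dsc (IPow M (X × X))))) = false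
    exact decide_eq_false not_flt_bot

theorem Int.boolPred {p : Bool → Bool → Prop} : Int M (fun q : Bool × Bool => p q.1 q.2) := by
  refine Int.bool (p := fun (q : Bool × Bool) b => p b q.2) IntF.fst' ?_ ?_
  · exact Int.bool (p := fun (q : Bool × Bool) b => p false b) IntF.snd' (Int.const _) (Int.const _)
  · exact Int.bool (p := fun (q : Bool × Bool) b => p true b) IntF.snd' (Int.const _) (Int.const _)

theorem IntF.boolOp {p : Bool → Bool → Bool} : IntF M (fun q : Bool × Bool => p q.1 q.2) := by
  refine IntF.boolCases (f := fun (q : Bool × Bool) b => p b q.2) IntF.fst' ?_ ?_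
  · exact IntF.boolCases (f := fun (q : Bool × Bool) b => p false b) IntF.snd' (IntF.const _)
      (IntF.const _)
  · exact IntF.boolCases (f := fun (q : Bool × Bool) b => p true b) IntF.snd' (IntF.const _)
      (IntF.const _)

theorem SIK.ultra (h : SIK M) (X : Type u₁) [ITy M X] :
    ∃ g : BoundedLatticeHom (RO M (Dsc (IPow M (X × X)))) Bool, IntF M (fun U => g U) ∧
      ∀ U, Flt U → g U = true := by
  obtain ⟨g, hg, h1⟩ := h.extend (A := RO M (Dsc (IPow M (X × X)))) (B := Bool) RO.int_sup
    RO.int_inf (IntF.boolOp (p := fun a b => a ⊔ b)) (IntF.boolOp (p := fun a b => a ⊓ b))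
    (fun s => by
      by_cases hs : true ∈ s
      · refine ⟨true, fun x _ => ?_, fun y hy => ?_⟩
        · exact le_top
        · exact hy hs
      · refine ⟨false, fun x hx => ?_, fun y hy => ?_⟩
        · cases x
          · exact le_rfl
          · exact absurd hx hs
        · exact bot_le) (FltAlg M X)
    (by
      have h2 : Int M (fun U : RO M (Dsc (IPow M (X × X))) => Flt U ∨ Flt Uᶜ) :=
        Int.or (Int.flt IntF.id) (Int.flt RO.int_compl)
      exact h2) fltHom
    (by
      have h2 : Int M (fun q : RO M (Dsc (IPow M (X × X))) × Bool =>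
          (Flt q.1 ∨ Flt q.1ᶜ) ∧ (q.2 = true ↔ Flt q.1)) :=
        Int.and (Int.or (Int.flt IntF.fst') (Int.flt (RO.int_compl.comp IntF.fst')))
          (Int.iff (Int.eq IntF.snd' (IntF.const _)) (Int.flt IntF.fst'))
      refine h2.congr fun q => ?_
      obtain ⟨U, b⟩ := q
      constructor
      · rintro ⟨h3, h4⟩
        refine ⟨h3, ?_⟩
        classical
        change decide (Flt U) = b
        rw [Bool.eq_iff_iff, decide_eq_true_iff]
        exact h4.symm
      · rintro ⟨h3, h4⟩
        refine ⟨h3, ?_⟩
        have h5 : fltHom ⟨U, h3⟩ = b := h4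
        change b = true ↔ Flt U
        rw [← h5]
        classical
        change decide (Flt U) = true ↔ _
        rw [decide_eq_true_iff])
  refine ⟨g, hg, fun U hU => ?_⟩
  classical
  have h2 := h1 ⟨U, Or.inl hU⟩
  change g U = decide (Flt U) at h2
  rw [h2]
  exact decide_eq_true hU

/-- The set of relations containing a given pair. -/
noncomputable def relAt (q : X × X) : RO M (Dsc (IPow M (X × X))) :=
  ⟨sep M fun r : Dsc (IPow M (X × X)) => q ∈ r.un, isReg_dsc _⟩

theorem mem_relAt {q : X × X} {r : Dsc (IPow M (X × X))} : r ∈ relAt (M := M) q ↔ q ∈ r.un := by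
  change r ∈ sep M _ ↔ _
  rw [mem_sep (by (with_reducible apply Int.mem; with_reducible exact IntF.const _; with_reducible apply IntF.un; with_reducible exact IntF.id))]

theorem IntF.relAt : IntF M (fun q : X × X => relAt (M := M) q) := by
  refine IntF.mk ?_
  have h : IntF M (fun q : X × X => ZFA.sep M fun r : Dsc (IPow M (X × X)) => q ∈ r.un) := by (with_reducible apply IntF.sep; with_reducible apply Int.mem; with_reducible exact IntF.fst'; with_reducible apply IntF.un; with_reducible exact IntF.snd')
  exact h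

/-- Every internal type has an internal linear order. -/
theorem SIK.order (h : SIK M) (X : Type u₁) [ITy M X] :
    ∃ o : IPow M (X × X), IsTotalOrder' M o := by
  obtain ⟨g, hg, h1⟩ := h.ultra X
  have hi : Int M (fun q : X × X => g (relAt (M := M) q) = true) :=
    Int.eq (hg.comp IntF.relAt) (IntF.const _)
  have g2 : ∀ {U V}, g U = true → U ≤ V → g V = true := fun {U V} h2 h3 => by
    have h4 := OrderHomClass.mono g h3
    rw [h2] at h4
    exact top_le_iff.1 h4
  have g3 : ∀ {U V}, g U = true → g V = true → g (U ⊓ V) = true := fun {U V} h2 h3 => by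
    rw [map_inf, h2, h3]
    rfl
  refine ⟨sep M fun q : X × X => g (relAt (M := M) q) = true, ?_, ?_, ?_⟩
  · intro x y z hxy hyz
    rw [mem_sep hi] at hxy hyz ⊢
    have h2 : Flt ((relAt (M := M) (x, y) ⊓ relAt (M := M) (y, z))ᶜ ⊔ relAt (M := M) (x, z)) := by
      refine ⟨∅, IFin.empty, fun r hr _ => ?_⟩
      refine RO.mem_sup.2 fun r' hr' => ?_
      obtain rfl : r' = r := hr'
      refine ⟨r', le_rfl, ?_⟩
      by_cases h3 : (x, y) ∈ r'.un ∧ (y, z) ∈ r'.un
      · refine Or.inr (mem_relAt.2 ?_)
        exact hr.2.2.1 _ _ _ h3.1 h3.2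
      · refine Or.inl (RO.mem_compl.2 fun r'' hr'' h4 => h3 ?_)
        obtain rfl : r'' = r' := hr''
        rw [RO.mem_inf, mem_relAt, mem_relAt] at h4
        exact h4
    have h3 := g3 (h1 _ h2) (g3 hxy hyz)
    refine g2 h3 ?_
    rw [inf_sup_right, compl_inf_self, bot_sup_eq]
    exact inf_le_left
  · intro x y hxy hyx
    rw [mem_sep hi] at hxy hyx
    by_contra hne
    have h2 : Flt (relAt (M := M) (x, y) ⊓ relAt (M := M) (y, x))ᶜ := by
      refine ⟨∅, IFin.empty, fun r hr _ => ?_⟩
      refine RO.mem_compl.2 fun r' hr' h3 => ?_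
      obtain rfl : r' = r := hr'
      rw [RO.mem_inf, mem_relAt, mem_relAt] at h3
      exact hne (hr.2.2.2.1 _ _ h3.1 h3.2)
    have h3 := g3 (h1 _ h2) (g3 hxy hyx)
    rw [compl_inf_self, map_bot] at h3
    exact absurd h3 (by decide)
  · intro x y
    rw [mem_sep hi, mem_sep hi]
    have h2 : Flt (relAt (M := M) (x, y) ⊔ relAt (M := M) (y, x)) := by
      refine ⟨{x, y}, (IFin.singleton y).insert x, fun r hr hr' => ?_⟩
      refine RO.mem_sup.2 fun r' hr'' => ?_
      obtain rfl : r' = r := hr''
      refine ⟨r', le_rfl, ?_⟩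
      rw [mem_relAt, mem_relAt]
      exact hr.2.2.2.2 x y (mem_fld.1 (hr' x (by simp))) (mem_fld.1 (hr' y (by simp)))
    have h3 := h1 _ h2
    rw [map_sup] at h3
    rcases hx : g (relAt (M := M) (x, y)) with _ | _
    · rcases hy : g (relAt (M := M) (y, x)) with _ | _
      · rw [hx, hy] at h3
        exact absurd h3 (by decide)
      · exact Or.inr rfl
    · exact Or.inl rfl

end Pool.Agent.Helper672.ZFA
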