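import Mathlib

/-!
# Set theory: complete Boolean algebras, injectivity, and the axiom of choice

The language of set theory has one binary relation symbol, membership. The class `Zermelo M` says
that the structure `M` is a model of Zermelo set theory: Extensionality, Pairing, Union, Power
Set, Infinity and the schema of Separation. All of these are axioms (or theorems) of ZF, so every
model of ZF is such an `M`; neither Foundation nor Replacement is assumed.
-/

namespace Pool.Agent.Helper672.Plain

open FirstOrder FirstOrder.Language

universe u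

/-- The relation symbols of set theory: a binary one for membership. -/
inductive Sym : ℕ → Type
  | mem : Sym 2

/-- The language of set theory. -/
def LSet : FirstOrder.Language.{0, 0} := ⟨fun _ => Empty, Sym⟩

section defs

variable {M : Type u} [LSet.Structure M]

/-- `x` is an element of `y`. -/
def Mem (x y : M) : Prop := Structure.RelMap (L := LSet) (Sym.mem : LSet.Relations 2) ![x, y]

variable (M) in
/-- Models of Zermelo set theory: Extensionality, Pairing, Union, Power Set, Infinity, and the
schema of Separation for all classes that are first order definable with parameters. -/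
class Zermelo : Prop where
  ext : ∀ x y : M, (∀ z, Mem z x ↔ Mem z y) → x = y
  pairing : ∀ x y : M, ∃ p, ∀ z, Mem z p ↔ z = x ∨ z = y
  union : ∀ x : M, ∃ a, ∀ z, Mem z a ↔ ∃ y, Mem y x ∧ Mem z y
  power : ∀ x : M, ∃ p, ∀ z, Mem z p ↔ ∀ w, Mem w z → Mem w x
  infinity : ∃ i : M, (∃ e, Mem e i ∧ ∀ z, ¬ Mem z e) ∧
    ∀ n, Mem n i → ∃ s, Mem s i ∧ ∀ z, Mem z s ↔ Mem z n ∨ z = n
  separation : ∀ S : Set M, (Set.univ : Set M).Definable₁ LSet S →
    ∀ x : M, ∃ y, ∀ z, Mem z y ↔ Mem z x ∧ z ∈ S

/-- `p` is the unordered pair `{x, y}`. -/
def IsPair (p x y : M) : Prop := ∀ z, Mem z p ↔ z = x ∨ z = y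

/-- `p` is the (Kuratowski) ordered pair `(x, y) = {{x}, {x, y}}`. -/
def IsOrdPair (p x y : M) : Prop := ∃ s d, IsPair s x x ∧ IsPair d x y ∧ IsPair p s d

/-- The elements of `x`, as a type. -/
def El (x : M) : Type u := {z : M // Mem z x}

/-- `g` is, in the model, the graph of the function `f` from a subset of `a` to `b`: for `x` in
the domain of `f`, `f x = y` if and only if the pair `(x, y)` is in `g`. -/
def IsGraph {a b : M} {D : Type u} (i : D → El a) (f : D → El b) (g : M) : Prop :=
  ∀ (x : D) (y : El b), f x = y ↔ ∃ p, IsOrdPair p (i x).1 y.1 ∧ Mem p g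

/-- `g` is, in the model, the graph of the binary operation `f`: `f x y = z` if and only if
`((x, y), z)` is in `g`. -/
def IsOpGraph {a : M} (f : El a → El a → El a) (g : M) : Prop :=
  ∀ x y z : El a, f x y = z ↔ ∃ p q, IsOrdPair p x.1 y.1 ∧ IsOrdPair q p z.1 ∧ Mem q g

/-- The Boolean algebra `El a` is in the model: its join and meet are given by elements of the
model (the complement, the order, the top and the bottom are determined by them). -/
def IsBA (a : M) [BooleanAlgebra (El a)] : Prop :=
  (∃ g, IsOpGraph (fun x y : El a => x ⊔ y) g) ∧ ∃ g, IsOpGraph (fun x y : El a => x ⊓ y) g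

/-- In the model, the Boolean algebra `a` is complete: every subset of `a` that is in the model
has a supremum. -/
def IsCompleteBA (a : M) [BooleanAlgebra (El a)] : Prop :=
  ∀ s : M, (∀ x, Mem x s → Mem x a) → ∃ x : El a, IsLUB {y : El a | Mem y.1 s} x

/-- In the model, the Boolean algebra `b` is injective: whenever `a` is a Boolean algebra in the
model, `s` is a subalgebra of `a` in the model and `f : s → b` is a homomorphism in the model,
there is in the model a homomorphism `g : a → b` that extends `f`. -/
def IsInjectiveBA (b : M) [BooleanAlgebra (El b)] : Prop :=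
  ∀ (a : M) [BooleanAlgebra (El a)], IsBA a →
    ∀ (s : M) (S : BooleanSubalgebra (El a)), (∀ x : El a, x ∈ S ↔ Mem x.1 s) →
      ∀ f : BoundedLatticeHom S (El b), (∃ t, IsGraph (fun x : S => x.1) f t) →
        ∃ g : BoundedLatticeHom (El a) (El b), (∃ t, IsGraph (fun x : El a => x) g t) ∧
          ∀ x : S, g x = f x

variable (M) in
/-- `M` satisfies: every complete Boolean algebra is injective. -/
def CompleteInjective : Prop :=
  ∀ (b : M) [BooleanAlgebra (El b)], IsBA b → IsCompleteBA b → IsInjectiveBA b

variable (M) in
/-- `M` satisfies AC: for every set `a` of nonempty sets there is in `M` a function `f` with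
domain `a` that maps every `x` in `a` to an element of `x`. -/
def AC : Prop :=
  ∀ a : M, (∀ x, Mem x a → ∃ y, Mem y x) →
    ∃ f : M, (∀ q, Mem q f → ∃ x y, Mem x a ∧ Mem y x ∧ IsOrdPair q x y) ∧
      ∀ x, Mem x a → ∃! y, ∃ q, IsOrdPair q x y ∧ Mem q f

end defs

end Pool.Agent.Helper672.Plain
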