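import Pool.Agent.Helper672.SIK.Boo

/-!
# Regular open sets of an internal poset
-/

namespace Pool.Agent.Helper672.ZFA

open FirstOrder FirstOrder.Language

universe u u₁ u₂ u₃ u₄

variable {M : Type u} [L.Structure M] [hM : IsModel M]
variable {γ : Type u₃} [ITy M γ]
variable {P : Type u₁} [ITy M P] [Preorder P]

variable (M P) in
/-- Internal orders. -/
class ILe : Prop where
  out : Int M (fun q : P × P => q.1 ≤ q.2)

theorem Int.lle [h : ILe M P] {f g : γ → P} (hf : IntF M f) (hg : IntF M g) :
    Int M (fun c => f c ≤ g c) := Int.comp₂ (p := fun a b : P => a ≤ b) h.out hf hg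

/-- Regular open sets. -/
def IsReg (U : IPow M P) : Prop :=
  (∀ p q, q ≤ p → p ∈ U → q ∈ U) ∧ ∀ p, (∀ q, q ≤ p → ∃ r, r ≤ q ∧ r ∈ U) → p ∈ U

variable [hP : ILe M P]

theorem Int.isReg {U : γ → IPow M P} (hU : IntF M U) : Int M (fun c => IsReg (U c)) := by
  unfold IsReg
  (with_reducible apply Int.and; with_reducible apply Int.all; with_reducible apply Int.all; with_reducible apply Int.imp; with_reducible apply Int.lle; with_reducible exact IntF.snd'; with_reducible apply IntF.snd; with_reducible exact IntF.fst'; with_reducible apply Int.imp; with_reducible apply Int.mem; with_reducible apply IntF.snd; with_reducible exact IntF.fst'; with_reducible ((refine IntF.comp ?_ ?_); assumption); with_reducible apply IntF.fst; with_reducible exact IntF.fst'; with_reducible apply Int.mem; with_reducible exact IntF.snd'; with_reducible ((refine IntF.comp ?_ ?_); assumption); with_reducible apply IntF.fst; with_reducible exact IntF.fst'; with_reducible apply Int.all; with_reducible apply Int.imp; with_reducible apply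 Int.all; with_reducible apply Int.imp; with_reducible apply Int.lle; with_reducible exact IntF.snd'; with_reducible apply IntF.snd; with_reducible exact IntF.fst'; with_reducible apply Int.ex; with_reducible apply Int.and; with_reducible apply Int.lle; with_reducible exact IntF.snd'; with_reducible apply IntF.snd; with_reducible exact IntF.fst'; with_reducible apply Int.mem; with_reducible exact IntF.snd'; with_reducible ((refine IntF.comp ?_ ?_); assumption); with_reducible apply IntF.fst; with_reducible apply IntF.fst; with_reducible exact IntF.fst'; with_reducible apply Int.mem; with_reducible exact IntF.snd'; with_reducible ((refine IntF.comp ?_ ?_); assumption); with_reducible exact IntF.fst')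

instance factReg : Fact (Int M (fun U : IPow M P => IsReg U)) := ⟨by (with_reducible apply Int.isReg; with_reducible exact IntF.id)⟩

variable (M P) in
/-- The type of regular open sets. -/
abbrev RO := {U : IPow M P // IsReg U}

/-- The regular open hull. -/
noncomputable def hull (U : IPow M P) : IPow M P :=
  sep M fun p => ∀ q, q ≤ p → ∃ r, r ≤ q ∧ ∃ s, r ≤ s ∧ s ∈ U

omit hP in
theorem mem_hull [ILe M P] {U : IPow M P} {p : P} :
    p ∈ hull U ↔ ∀ q, q ≤ p → ∃ r, r ≤ q ∧ ∃ s, r ≤ s ∧ s ∈ U := by
  unfold hull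
  rw [mem_sep (by (with_reducible apply Int.all; with_reducible apply Int.imp; with_reducible apply Int.lle; with_reducible exact IntF.snd'; with_reducible exact IntF.fst'; with_reducible apply Int.ex; with_reducible apply Int.and; with_reducible apply Int.lle; with_reducible exact IntF.snd'; with_reducible apply IntF.snd; with_reducible exact IntF.fst'; with_reducible apply Int.ex; with_reducible apply Int.and; with_reducible apply Int.lle; with_reducible apply IntF.snd; with_reducible exact IntF.fst'; with_reducible exact IntF.snd'; with_reducible apply Int.mem; with_reducible exact IntF.snd'; with_reducible exact IntF.const _))]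

theorem isReg_hull (U : IPow M P) : IsReg (hull U) := by
  refine ⟨fun p q hqp hp => ?_, fun p hp => ?_⟩
  · rw [mem_hull] at hp ⊢
    exact fun r hr => hp r (hr.trans hqp)
  · rw [mem_hull]
    intro q hq
    obtain ⟨r, hr, h⟩ := hp q hq
    rw [mem_hull] at h
    obtain ⟨s, hs, h1⟩ := h r le_rfl
    exact ⟨s, hs.trans hr, h1⟩

theorem IntF.hull {U : γ → IPow M P} (hU : IntF M U) : IntF M (fun c => hull (U c)) := by
  unfold ZFA.hull
  (with_reducible apply IntF.sep; with_reducible apply Int.all; with_reducible apply Int.imp; with_reducible apply Int.lle; with_reducible exact IntF.snd'; with_reducible apply IntF.snd; with_reducible exact IntF.fst'; with_reducible apply Int.ex; with_reducible apply Int.and; with_reducible apply Int.lle; with_reducible exact IntF.snd'; with_reducible apply IntF.snd; with_reducible exact IntF.fst'; with_reducible apply Int.ex; with_reducible apply Int.and; with_reducible apply Int.lle; with_reducible apply IntF.snd; with_reducible exact IntF.fst'; with_reducible exact IntF.snd';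 with_reducible apply Int.mem; with_reducible exact IntF.snd'; with_reducible ((refine IntF.comp ?_ ?_); assumption); with_reducible apply IntF.fst; with_reducible apply IntF.fst; with_reducible apply IntF.fst; with_reducible exact IntF.fst')

/-- The pseudocomplement. -/
noncomputable def ncmp (U : IPow M P) : IPow M P := sep M fun p => ∀ q, q ≤ p → q ∉ U

theorem mem_ncmp {U : IPow M P} {p : P} : p ∈ ncmp U ↔ ∀ q, q ≤ p → q ∉ U := by
  unfold ncmp
  have h : Int M (fun p : P => ∀ q, q ≤ p → ¬ q ∈ U) := by (with_reducible apply Int.all; with_reducible apply Int.imp; with_reducible apply Int.lle; with_reducible exact IntF.snd'; with_reducible exact IntF.fst'; with_reducible apply Int.not; with_reducible apply Int.mem; with_reducible exact IntF.snd'; with_reducible exact IntF.const _)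
  rw [mem_sep h]

theorem IntF.ncmp {U : γ → IPow M P} (hU : IntF M U) : IntF M (fun c => ncmp (U c)) := by
  have h : IntF M (fun c => ZFA.sep M fun p => ∀ q, q ≤ p → ¬ q ∈ U c) := by (with_reducible apply IntF.sep; with_reducible apply Int.all; with_reducible apply Int.imp; with_reducible apply Int.lle; with_reducible exact IntF.snd'; with_reducible apply IntF.snd; with_reducible exact IntF.fst'; with_reducible apply Int.not; with_reducible apply Int.mem; with_reducible exact IntF.snd'; with_reducible ((refine IntF.comp ?_ ?_); assumption); with_reducible apply IntF.fst; with_reducible exact IntF.fst')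
  exact h

theorem isReg_ncmp {U : IPow M P} (hU : IsReg U) : IsReg (ncmp U) := by
  refine ⟨fun p q hqp hp => ?_, fun p hp => ?_⟩
  · rw [mem_ncmp] at hp ⊢
    exact fun r hr => hp r (hr.trans hqp)
  · rw [mem_ncmp]
    intro q hq hqU
    obtain ⟨r, hr, h⟩ := hp q hq
    rw [mem_ncmp] at h
    exact h r le_rfl (hU.1 q r hr hqU)

theorem isReg_inter {U V : IPow M P} (hU : IsReg U) (hV : IsReg V) : IsReg (U ∩ V) := by
  refine ⟨fun p q hqp hp => ?_, fun p hp => ?_⟩
  · rw [mem_inter] at hp ⊢
    exact ⟨hU.1 p q hqp hp.1, hV.1 p q hqp hp.2⟩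
  · rw [mem_inter]
    refine ⟨hU.2 p fun q hq => ?_, hV.2 p fun q hq => ?_⟩
    · obtain ⟨r, hr, h⟩ := hp q hq
      exact ⟨r, hr, (mem_inter.1 h).1⟩
    · obtain ⟨r, hr, h⟩ := hp q hq
      exact ⟨r, hr, (mem_inter.1 h).2⟩

theorem isReg_univ : IsReg (iuniv M P) :=
  ⟨fun _ _ _ _ => by simp, fun _ _ => by simp⟩

theorem isReg_empty : IsReg (∅ : IPow M P) := by
  refine ⟨fun _ _ _ h => absurd h (by simp), fun p h => ?_⟩
  obtain ⟨r, _, h1⟩ := h p le_rfl
  exact absurd h1 (by simp)

namespace RO

instance : Membership P (RO M P) := ⟨fun U p => p ∈ U.1⟩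

theorem mem_val {U : RO M P} {p : P} : p ∈ U.1 ↔ p ∈ U := Iff.rfl

theorem ext' {U V : RO M P} (h : ∀ p, p ∈ U ↔ p ∈ V) : U = V := Subtype.ext (IPow.ext' h)

theorem mono {U : RO M P} {p q : P} (h : q ≤ p) (hp : p ∈ U) : q ∈ U := U.2.1 p q h hp

theorem dense {U : RO M P} {p : P} (h : ∀ q, q ≤ p → ∃ r, r ≤ q ∧ r ∈ U) : p ∈ U := U.2.2 p h

noncomputable instance : PartialOrder (RO M P) where
  le U V := ∀ p, p ∈ U → p ∈ V
  le_refl _ _ := id
  le_trans _ _ _ h h' p hp := h' p (h p hp)
  le_antisymm _ _ h h' := ext' fun p => ⟨h p, h' p⟩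

theorem le_def {U V : RO M P} : U ≤ V ↔ ∀ p, p ∈ U → p ∈ V := Iff.rfl

noncomputable instance : Max (RO M P) := ⟨fun U V => ⟨hull (U.1 ∪ V.1), isReg_hull _⟩⟩
noncomputable instance : Min (RO M P) := ⟨fun U V => ⟨U.1 ∩ V.1, isReg_inter U.2 V.2⟩⟩
noncomputable instance : Top (RO M P) := ⟨⟨iuniv M P, isReg_univ⟩⟩
noncomputable instance : Bot (RO M P) := ⟨⟨∅, isReg_empty⟩⟩
noncomputable instance : Compl (RO M P) := ⟨fun U => ⟨ncmp U.1, isReg_ncmp U.2⟩⟩

theorem mem_sup {U V : RO M P} {p : P} :
    p ∈ U ⊔ V ↔ ∀ q, q ≤ p → ∃ r, r ≤ q ∧ (r ∈ U ∨ r ∈ V) := by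
  change p ∈ hull (U.1 ∪ V.1) ↔ _
  rw [mem_hull]
  refine forall_congr' fun q => imp_congr_right fun _ => exists_congr fun r =>
    and_congr_right fun _ => ?_
  constructor
  · rintro ⟨s, hs, h⟩
    rcases mem_union.1 h with h | h
    · exact Or.inl (U.2.1 s r hs h)
    · exact Or.inr (V.2.1 s r hs h)
  · rintro (h | h)
    · exact ⟨r, le_rfl, mem_union.2 (Or.inl h)⟩
    · exact ⟨r, le_rfl, mem_union.2 (Or.inr h)⟩

theorem mem_inf {U V : RO M P} {p : P} : p ∈ U ⊓ V ↔ p ∈ U ∧ p ∈ V := mem_inter

theorem mem_compl {U : RO M P} {p : P} : p ∈ Uᶜ ↔ ∀ q, q ≤ p → q ∉ U := mem_ncmp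

theorem mem_top {p : P} : p ∈ (⊤ : RO M P) ↔ True := mem_iuniv

theorem mem_bot {p : P} : p ∈ (⊥ : RO M P) ↔ False := mem_empty

noncomputable instance : BooleanAlgebra (RO M P) where
  sup U V := U ⊔ V
  inf U V := U ⊓ V
  le_sup_left U V p hp := mem_sup.2 fun q hq => ⟨q, le_rfl, Or.inl (mono hq hp)⟩
  le_sup_right U V p hp := mem_sup.2 fun q hq => ⟨q, le_rfl, Or.inr (mono hq hp)⟩
  sup_le U V W h h' p hp := by
    refine dense fun q hq => ?_
    obtain ⟨r, hr, h1⟩ := mem_sup.1 hp q hq
    exact ⟨r, hr, h1.elim (h r) (h' r)⟩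
  inf_le_left U V p hp := (mem_inf.1 hp).1
  inf_le_right U V p hp := (mem_inf.1 hp).2
  le_inf U V W h h' p hp := mem_inf.2 ⟨h p hp, h' p hp⟩
  le_sup_inf U V W p hp := by
    obtain ⟨h1, h2⟩ := mem_inf.1 hp
    refine mem_sup.2 fun q hq => ?_
    obtain ⟨r, hr, h3⟩ := mem_sup.1 h1 q hq
    rcases h3 with h3 | h3
    · exact ⟨r, hr, Or.inl h3⟩
    · obtain ⟨s, hs, h4⟩ := mem_sup.1 h2 r (hr.trans hq)
      rcases h4 with h4 | h4
      · exact ⟨s, hs.trans hr, Or.inl h4⟩
      · exact ⟨s, hs.trans hr, Or.inr (mem_inf.2 ⟨mono hs h3, h4⟩)⟩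
  compl U := Uᶜ
  top := ⊤
  bot := ⊥
  inf_compl_le_bot U p hp := by
    obtain ⟨h1, h2⟩ := mem_inf.1 hp
    exact absurd h1 (mem_compl.1 h2 p le_rfl)
  top_le_sup_compl U p _ := by
    refine mem_sup.2 fun q hq => ?_
    by_cases h : ∃ r, r ≤ q ∧ r ∈ U
    · obtain ⟨r, hr, h⟩ := h
      exact ⟨r, hr, Or.inl h⟩
    · push Not at h
      exact ⟨q, le_rfl, Or.inr (mem_compl.2 h)⟩
  le_top U p _ := mem_top.2 trivial
  bot_le U p hp := absurd hp mem_bot.1

theorem int_sup : IntF M (fun q : RO M P × RO M P => q.1 ⊔ q.2) := by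
  refine IntF.mk ?_
  have h : IntF M (fun q : RO M P × RO M P => hull (q.1.1 ∪ q.2.1)) := by (with_reducible apply IntF.hull; with_reducible apply IntF.union; with_reducible apply IntF.val; with_reducible exact IntF.fst'; with_reducible apply IntF.val; with_reducible exact IntF.snd')
  exact h

theorem int_inf : IntF M (fun q : RO M P × RO M P => q.1 ⊓ q.2) := by
  refine IntF.mk ?_
  have h : IntF M (fun q : RO M P × RO M P => q.1.1 ∩ q.2.1) := by (with_reducible apply IntF.inter; with_reducible apply IntF.val; with_reducible exact IntF.fst'; with_reducible apply IntF.val; with_reducible exact IntF.snd')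
  exact h

theorem int_compl : IntF M (fun q : RO M P => qᶜ) := by
  refine IntF.mk ?_
  have h : IntF M (fun q : RO M P => ncmp q.1) := by (with_reducible apply IntF.ncmp; with_reducible apply IntF.val; with_reducible exact IntF.id)
  exact h

/-- Suprema. -/
theorem exists_lub (S : IPow M (RO M P)) :
    ∃ U : RO M P, (∀ p, p ∈ U ↔ ∀ q, q ≤ p → ∃ r, r ≤ q ∧ ∃ V, V ∈ S ∧ r ∈ V) ∧
      (∀ V, V ∈ S → V ≤ U) ∧ ∀ W, (∀ V, V ∈ S → V ≤ W) → U ≤ W := by
  have hi : Int M (fun p : P => ∃ V : RO M P, V ∈ S ∧ p ∈ V.1) := by (with_reducible apply Int.ex; with_reducible apply Int.and; with_reducible apply Int.mem; with_reducible exact IntF.snd'; with_reducible exact IntF.const _; with_reducible apply Int.mem; with_reducible exact IntF.fst'; with_reducible apply IntF.val; with_reducible exact IntF.snd')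
  have h : ∀ p, p ∈ (⟨hull (sep M fun p : P => ∃ V : RO M P, V ∈ S ∧ p ∈ V.1), isReg_hull _⟩ :
      RO M P) ↔ ∀ q, q ≤ p → ∃ r, r ≤ q ∧ ∃ V, V ∈ S ∧ r ∈ V := by
    intro p
    change p ∈ hull _ ↔ _
    rw [mem_hull]
    refine forall_congr' fun q => imp_congr_right fun _ => exists_congr fun r =>
      and_congr_right fun _ => ?_
    constructor
    · rintro ⟨s, hs, h⟩
      obtain ⟨V, hV, h1⟩ := (mem_sep hi).1 h
      exact ⟨V, hV, mono hs h1⟩
    · rintro ⟨V, hV, h⟩
      exact ⟨r, le_rfl, (mem_sep hi).2 ⟨V, hV, h⟩⟩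
  refine ⟨_, h, fun V hV p hp => (h p).2 fun q hq => ⟨q, le_rfl, V, hV, mono hq hp⟩, ?_⟩
  intro W hW p hp
  refine dense fun q hq => ?_
  obtain ⟨r, hr, V, hV, h1⟩ := (h p).1 hp q hq
  exact ⟨r, hr, hW V hV r h1⟩

end RO

end Pool.Agent.Helper672.ZFA
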