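import Pool.Agent.Helper672.SIK.Choice

/-!
# Sikorski's extension theorem: choice implies injectivity
-/

namespace Pool.Agent.Helper672.ZFA

open FirstOrder FirstOrder.Language
open scoped symmDiff

universe u u₁ u₂ u₃ u₄

/-! ### Algebra -/

section alg

/-- The elements `(s ⊓ p) ⊔ (t ⊓ pᶜ)`. -/
def Stp {C : Type*} [BooleanAlgebra C] (R : C → Prop) (p q : C) : Prop :=
  ∃ s t, R s ∧ R t ∧ q = (s ⊓ p) ⊔ (t ⊓ pᶜ)

theorem mix_sup {C : Type*} [BooleanAlgebra C] (s t s' t' p : C) :
    ((s ⊓ p) ⊔ (t ⊓ pᶜ)) ⊔ ((s' ⊓ p) ⊔ (t' ⊓ pᶜ)) = ((s ⊔ s') ⊓ p) ⊔ ((t ⊔ t') ⊓ pᶜ) := by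
  rw [sup_sup_sup_comm, ← inf_sup_right, ← inf_sup_right]

theorem mix_disj {C : Type*} [BooleanAlgebra C] (s t p : C) :
    ((s ⊓ p) ⊔ (t ⊓ pᶜ)) ⊓ ((sᶜ ⊓ p) ⊔ (tᶜ ⊓ pᶜ)) = ⊥ := by
  rw [← disjoint_iff, disjoint_sup_left, disjoint_sup_right, disjoint_sup_right]
  refine ⟨⟨?_, ?_⟩, ?_, ?_⟩
  · exact Disjoint.mono inf_le_left inf_le_left (disjoint_compl_right (a := s))
  · exact Disjoint.mono inf_le_right inf_le_right (disjoint_compl_right (a := p))
  · exact Disjoint.mono inf_le_right inf_le_right (disjoint_compl_left (a := p))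
  · exact Disjoint.mono inf_le_left inf_le_left (disjoint_compl_right (a := t))

theorem mix_compl {C : Type*} [BooleanAlgebra C] (s t p : C) :
    ((s ⊓ p) ⊔ (t ⊓ pᶜ))ᶜ = (sᶜ ⊓ p) ⊔ (tᶜ ⊓ pᶜ) := by
  refine (IsCompl.of_eq (mix_disj s t p) ?_).compl_eq
  rw [mix_sup, sup_compl_eq_top, sup_compl_eq_top, top_inf_eq, top_inf_eq, sup_compl_eq_top]

variable {A B : Type*} [BooleanAlgebra A] [BooleanAlgebra B]

/-- Graphs of partial homomorphisms. -/
def IsPH (R : A × B → Prop) : Prop :=
  R ⊥ ∧ (∀ p q, R p → R q → R (p ⊔ q)) ∧ (∀ p, R p → R pᶜ) ∧ ∀ b, R (⊥, b) → b = ⊥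

theorem IsPH.inf {R : A × B → Prop} (h : IsPH R) {p q : A × B} (hp : R p) (hq : R q) :
    R (p ⊓ q) := by
  have h1 := h.2.2.1 _ (h.2.1 _ _ (h.2.2.1 _ hp) (h.2.2.1 _ hq))
  rwa [compl_sup, compl_compl, compl_compl] at h1

theorem IsPH.unique {R : A × B → Prop} (h : IsPH R) {a : A} {b b' : B} (hb : R (a, b))
    (hb' : R (a, b')) : b = b' := by
  have h1 : R (⊥, b ⊓ b'ᶜ) := by
    have h2 := h.inf hb (h.2.2.1 _ hb')
    have h3 : ((a, b) : A × B) ⊓ (a, b')ᶜ = (⊥, b ⊓ b'ᶜ) := Prod.ext (inf_compl_self a) rfl
    rwa [h3] at h2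
  have h1' : R (⊥, b' ⊓ bᶜ) := by
    have h2 := h.inf hb' (h.2.2.1 _ hb)
    have h3 : ((a, b') : A × B) ⊓ (a, b)ᶜ = (⊥, b' ⊓ bᶜ) := Prod.ext (inf_compl_self a) rfl
    rwa [h3] at h2
  have h2 := h.2.2.2 _ h1
  have h2' := h.2.2.2 _ h1'
  refine le_antisymm ?_ ?_
  · exact disjoint_compl_right_iff.1 (disjoint_iff.2 h2)
  · exact disjoint_compl_right_iff.1 (disjoint_iff.2 h2')

theorem IsPH.mono' {R : A × B → Prop} (h : IsPH R) {a a' : A} {b b' : B} (hb : R (a, b))
    (hb' : R (a', b')) (haa : a ≤ a') : b ≤ b' := by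
  have h1 : R (a', b ⊔ b') := by
    have h2 := h.2.1 _ _ hb hb'
    have h3 : ((a, b) : A × B) ⊔ (a', b') = (a', b ⊔ b') := Prod.ext (sup_eq_right.2 haa) rfl
    rwa [h3] at h2
  have h2 := h.unique h1 hb'
  rw [← h2]
  exact le_sup_left

theorem IsPH.stp {R : A × B → Prop} (h : IsPH R) {x : A} {b : B}
    (hb : ∀ s y, R (s, y) → s ≤ x → y ≤ b)
    (hb' : ∀ w, (∀ s y, R (s, y) → s ≤ x → y ≤ w) → b ≤ w) : IsPH (Stp R (x, b)) := by
  refine ⟨⟨⊥, ⊥, h.1, h.1, by simp⟩, ?_, ?_, ?_⟩
  · rintro _ _ ⟨s, t, hs, ht, rfl⟩ ⟨s', t', hs', ht', rfl⟩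
    exact ⟨_, _, h.2.1 _ _ hs hs', h.2.1 _ _ ht ht', mix_sup _ _ _ _ _⟩
  · rintro _ ⟨s, t, hs, ht, rfl⟩
    exact ⟨_, _, h.2.2.1 _ hs, h.2.2.1 _ ht, mix_compl _ _ _⟩
  · rintro c ⟨⟨s, s'⟩, ⟨t, t'⟩, hs, ht, h1⟩
    have h2 : (s ⊓ x) ⊔ (t ⊓ xᶜ) = ⊥ := (congrArg Prod.fst h1).symm
    have h3 : c = (s' ⊓ b) ⊔ (t' ⊓ bᶜ) := congrArg Prod.snd h1
    rw [sup_eq_bot_iff] at h2
    have h4 : s' ⊓ b = ⊥ := by
      rw [← disjoint_iff]
      refine le_compl_iff_disjoint_left.1 (hb' _ fun r y hr hrx => ?_)
      refine h.mono' hr (h.2.2.1 _ hs : R (sᶜ, s'ᶜ)) ?_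
      exact hrx.trans (le_compl_iff_disjoint_left.2 (disjoint_iff.2 h2.1))
    have h5 : t' ⊓ bᶜ = ⊥ := by
      rw [← disjoint_iff]
      refine disjoint_compl_right_iff.2 (hb t t' ht ?_)
      exact disjoint_compl_right_iff.1 (disjoint_iff.2 h2.2)
    rw [h3, h4, h5, sup_bot_eq]

theorem stp_of {R : A × B → Prop} {p q : A × B} (h : R q) : Stp R p q :=
  ⟨q, q, h, h, by rw [← inf_sup_left, sup_compl_eq_top, inf_top_eq]⟩

theorem IsPH.stp_self {R : A × B → Prop} (h : IsPH R) {p : A × B} : Stp R p p :=
  ⟨⊤, ⊥, by
    have h1 := h.2.2.1 _ h.1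
    rwa [compl_bot] at h1, h.1, by simp⟩

/-- Total graphs give homomorphisms. -/
theorem IsPH.exists_hom {R : A × B → Prop} (h : IsPH R) (ht : ∀ a, ∃ b, R (a, b)) :
    ∃ g : BoundedLatticeHom A B, ∀ a b, g a = b ↔ R (a, b) := by
  choose g hg using ht
  have h1 : ∀ a b, g a = b ↔ R (a, b) := fun a b =>
    ⟨fun h1 => h1 ▸ hg a, fun h1 => h.unique (hg a) h1⟩
  refine ⟨{ toFun := g, map_sup' := ?_, map_inf' := ?_, map_top' := ?_, map_bot' := ?_ }, h1⟩
  · exact fun a b => (h1 _ _).2 (h.2.1 _ _ (hg a) (hg b))
  · exact fun a b => (h1 _ _).2 (h.inf (hg a) (hg b))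
  · refine (h1 _ _).2 ?_
    have h2 := h.2.2.1 _ h.1
    rwa [compl_bot] at h2
  · exact (h1 _ _).2 h.1

end alg

/-! ### Internal Boolean algebras -/

variable {M : Type u} [L.Structure M] [hM : IsModel M]
variable {A : Type u₁} {B : Type u₂} {γ : Type u₃} [ITy M A] [ITy M B] [ITy M γ]
variable [BooleanAlgebra A] [BooleanAlgebra B]

variable (M A) in
/-- Internal Boolean algebras. -/
class IBA : Prop where
  sup : IntF M (fun q : A × A => q.1 ⊔ q.2)
  inf : IntF M (fun q : A × A => q.1 ⊓ q.2)

theorem IntF.bsup [h : IBA M A] {f g : γ → A} (hf : IntF M f) (hg : IntF M g) :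
    IntF M (fun c => f c ⊔ g c) := IntF.comp₂ (p := fun a b : A => a ⊔ b) h.sup hf hg

theorem IntF.binf [h : IBA M A] {f g : γ → A} (hf : IntF M f) (hg : IntF M g) :
    IntF M (fun c => f c ⊓ g c) := IntF.comp₂ (p := fun a b : A => a ⊓ b) h.inf hf hg

instance [IBA M A] : ILe M A := ⟨by
  have h : Int M (fun q : A × A => q.1 ⊔ q.2 = q.2) := by (with_reducible apply Int.eq; with_reducible apply IntF.bsup; with_reducible exact IntF.fst'; with_reducible exact IntF.snd'; with_reducible exact IntF.snd')
  exact h.congr fun q => sup_eq_right⟩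

theorem IntF.bcompl [h : IBA M A] {f : γ → A} (hf : IntF M f) : IntF M (fun c => (f c)ᶜ) := by
  refine IntF.of_rel (r := fun c a => f c ⊓ a = ⊥ ∧ f c ⊔ a = ⊤) (by (with_reducible apply Int.and; with_reducible apply Int.eq; with_reducible apply IntF.binf; with_reducible ((refine IntF.comp ?_ ?_); assumption); with_reducible exact IntF.fst'; with_reducible exact IntF.snd'; with_reducible exact IntF.const _; with_reducible apply Int.eq; with_reducible apply IntF.bsup; with_reducible ((refine IntF.comp ?_ ?_); assumption); with_reducible exact IntF.fst'; with_reducible exact IntF.snd'; with_reducible exact IntF.const _)) fun c a => ?_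
  constructor
  · intro h1
    exact (IsCompl.of_eq h1.1 h1.2).compl_eq
  · rintro rfl
    exact ⟨inf_compl_self _, sup_compl_eq_top⟩

instance [IBA M A] [IBA M B] : IBA M (A × B) where
  sup := by
    have h : IntF M (fun q : (A × B) × (A × B) => (q.1.1 ⊔ q.2.1, q.1.2 ⊔ q.2.2)) := by (with_reducible apply IntF.pair; with_reducible apply IntF.bsup; with_reducible apply IntF.fst; with_reducible exact IntF.fst'; with_reducible apply IntF.fst; with_reducible exact IntF.snd'; with_reducible apply IntF.bsup; with_reducible apply IntF.snd; with_reducible exact IntF.fst'; with_reducible apply IntF.snd; with_reducible exact IntF.snd')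
    exact h
  inf := by
    have h : IntF M (fun q : (A × B) × (A × B) => (q.1.1 ⊓ q.2.1, q.1.2 ⊓ q.2.2)) := by (with_reducible apply IntF.pair; with_reducible apply IntF.binf; with_reducible apply IntF.fst; with_reducible exact IntF.fst'; with_reducible apply IntF.fst; with_reducible exact IntF.snd'; with_reducible apply IntF.binf; with_reducible apply IntF.snd; with_reducible exact IntF.fst'; with_reducible apply IntF.snd; with_reducible exact IntF.snd')
    exact h

/-- The complement of a set. -/
noncomputable def cpl {Y : Type*} [ITy M Y] (S : IPow M Y) : IPow M Y := sep M fun q => ¬ q ∈ S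

theorem mem_cpl {Y : Type*} [ITy M Y] {S : IPow M Y} {q : Y} : q ∈ cpl S ↔ ¬ q ∈ S := by
  unfold cpl
  rw [mem_sep (by (with_reducible apply Int.not; with_reducible apply Int.mem; with_reducible exact IntF.id; with_reducible exact IntF.const _))]

theorem IntF.cpl {Y : Type*} [ITy M Y] {S : γ → IPow M Y} (hS : IntF M S) :
    IntF M (fun c => cpl (S c)) := by
  unfold ZFA.cpl
  (with_reducible apply IntF.sep; with_reducible apply Int.not; with_reducible apply Int.mem; with_reducible exact IntF.snd'; with_reducible ((refine IntF.comp ?_ ?_); assumption); with_reducible exact IntF.fst')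

theorem cpl_cpl {Y : Type*} [ITy M Y] (S : IPow M Y) : cpl (cpl S) = S :=
  IPow.ext' fun q => by rw [mem_cpl, mem_cpl, not_not]

theorem Int.isPH [IBA M A] [IBA M B] {R : γ → IPow M (A × B)} (hR : IntF M R) :
    Int M (fun c => IsPH (fun q => q ∈ R c)) := by
  unfold IsPH
  (with_reducible apply Int.and; with_reducible apply Int.mem; with_reducible exact IntF.const _; with_reducible assumption; with_reducible apply Int.and; with_reducible apply Int.all; with_reducible apply Int.all; with_reducible apply Int.imp; with_reducible apply Int.mem; with_reducible apply IntF.snd; with_reducible exact IntF.fst'; with_reducible ((refine IntF.comp ?_ ?_); assumption); with_reducible apply IntF.fst; with_reducible exact IntF.fst'; with_reducible apply Int.imp; with_reducible apply Int.mem; with_reducible exact IntF.snd'; with_reducible ((refine IntF.comp ?_ ?_); assumption); with_reducible apply IntF.fst; with_reducible exact IntF.fst'; with_reducible apply Int.mem; with_reducible apply IntF.bsup; with_reducible apply IntF.snd; with_reducible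 exact IntF.fst'; with_reducible exact IntF.snd'; with_reducible ((refine IntF.comp ?_ ?_); assumption); with_reducible apply IntF.fst; with_reducible exact IntF.fst'; with_reducible apply Int.and; with_reducible apply Int.all; with_reducible apply Int.imp; with_reducible apply Int.mem; with_reducible exact IntF.snd'; with_reducible ((refine IntF.comp ?_ ?_); assumption); with_reducible exact IntF.fst'; with_reducible apply Int.mem; with_reducible apply IntF.bcompl; with_reducible exact IntF.snd'; with_reducible ((refine IntF.comp ?_ ?_); assumption); with_reducible exact IntF.fst'; with_reducible apply Int.all; with_reducible apply Int.imp; with_reducible apply Int.mem; with_reducible apply IntF.pair; with_reducible exact IntF.const _; with_reducible exact IntF.snd'; with_reducible ((refine IntF.comp ?_ ?_); assumption); with_reducible exact IntF.fst'; with_reducible apply Int.eq; with_reducible exact IntF.snd'; with_reducible exact IntF.const _)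

/-- Elements outside the domain. -/
noncomputable def mis (R : IPow M (A × B)) : IPow M A := sep M fun a => ∀ b, ¬ (a, b) ∈ R

theorem mem_mis {R : IPow M (A × B)} {a : A} : a ∈ mis R ↔ ∀ b, ¬ (a, b) ∈ R := by
  unfold mis
  rw [mem_sep (by (with_reducible apply Int.all; with_reducible apply Int.not; with_reducible apply Int.mem; with_reducible exact IntF.id; with_reducible exact IntF.const _))]

theorem IntF.mis {R : γ → IPow M (A × B)} (hR : IntF M R) : IntF M (fun c => mis (R c)) := by
  unfold ZFA.mis
  (with_reducible apply IntF.sep; with_reducible apply Int.all; with_reducible apply Int.not; with_reducible apply Int.mem; with_reducible apply IntF.pair; with_reducible apply IntF.snd; with_reducible exact IntF.fst'; with_reducible exact IntF.snd'; with_reducible ((refine IntF.comp ?_ ?_); assumption); with_reducible apply IntF.fst; with_reducible exact IntF.fst')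

/-- The value assigned to a new element `x` is `b`. -/
def IsVal (R : IPow M (A × B)) (x : A) (b : B) : Prop :=
  (∀ s y, (s, y) ∈ R → s ≤ x → y ≤ b) ∧ ∀ w, (∀ s y, (s, y) ∈ R → s ≤ x → y ≤ w) → b ≤ w

theorem Int.isVal [IBA M A] [IBA M B] {R : γ → IPow M (A × B)} {x : γ → A} {b : γ → B}
    (hR : IntF M R) (hx : IntF M x) (hb : IntF M b) :
    Int M (fun c => IsVal (R c) (x c) (b c)) := by
  unfold IsVal
  (with_reducible apply Int.and; with_reducible apply Int.all; with_reducible apply Int.all; with_reducible apply Int.imp; with_reducible apply Int.mem; with_reducible apply IntF.pair; with_reducible apply IntF.snd; with_reducible exact IntF.fst'; with_reducible exact IntF.snd'; with_reducible ((refine IntF.comp ?_ ?_); assumption); with_reducible apply IntF.fst; with_reducible exact IntF.fst'; with_reducible apply Int.imp; with_reducible apply Int.lle; with_reducible apply IntF.snd; with_reducible exact IntF.fst'; with_reducible ((refine IntF.comp ?_ ?_); assumption); with_reducible apply IntF.fst; with_reducible exact IntF.fst';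 with_reducible apply Int.lle; with_reducible exact IntF.snd'; with_reducible ((refine IntF.comp ?_ ?_); assumption); with_reducible apply IntF.fst; with_reducible exact IntF.fst'; with_reducible apply Int.all; with_reducible apply Int.imp; with_reducible apply Int.all; with_reducible apply Int.all; with_reducible apply Int.imp; with_reducible apply Int.mem; with_reducible apply IntF.pair; with_reducible apply IntF.snd; with_reducible exact IntF.fst'; with_reducible exact IntF.snd'; with_reducible ((refine IntF.comp ?_ ?_); assumption); with_reducible apply IntF.fst; with_reducible apply IntF.fst; with_reducible exact IntF.fst'; with_reducible apply Int.imp; with_reducible apply Int.lle; with_reducible apply IntF.snd; with_reducible exact IntF.fst'; with_reducible ((refine IntF.comp ?_ ?_); assumption); with_reducible apply IntF.fst; with_reducible apply IntF.fst; with_reducible exact IntF.fst'; with_reducible apply Int.lle; with_reducible exact IntF.snd'; with_reducible apply IntF.snd; with_reducible apply IntF.fst; with_reducible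 exact IntF.fst'; with_reducible apply Int.lle; with_reducible ((refine IntF.comp ?_ ?_); assumption); with_reducible exact IntF.fst'; with_reducible exact IntF.snd')

/-- The extension of a partial homomorphism. -/
def Xt (c : IFun M (IPow M A) A) (R : IPow M (A × B)) (q : A × B) : Prop :=
  q ∈ R ∨ (∃ z, z ∈ mis R) ∧ ∃ b, IsVal R (c (mis R)) b ∧
    ∃ s t, s ∈ R ∧ t ∈ R ∧ q = (s ⊓ (c (mis R), b)) ⊔ (t ⊓ (c (mis R), b)ᶜ)

theorem int_xt [IBA M A] [IBA M B] (c : IFun M (IPow M A) A) :
    Int M (fun q : IPow M (A × B) × (A × B) => Xt c q.1 q.2) := by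
  unfold Xt
  (with_reducible apply Int.or; with_reducible apply Int.mem; with_reducible exact IntF.snd'; with_reducible exact IntF.fst'; with_reducible apply Int.and; with_reducible apply Int.ex; with_reducible apply Int.mem; with_reducible exact IntF.snd'; with_reducible apply IntF.mis; with_reducible apply IntF.fst; with_reducible exact IntF.fst'; with_reducible apply Int.ex; with_reducible apply Int.and; with_reducible apply Int.isVal; with_reducible apply IntF.fst; with_reducible exact IntF.fst'; with_reducible apply IntF.app; with_reducible exact IntF.const _; with_reducible apply IntF.mis; with_reducible apply IntF.fst; with_reducible exact IntF.fst'; with_reducible exact IntF.snd'; with_reducible apply Int.ex; with_reducible apply Int.ex; with_reducible apply Int.and; with_reducible apply Int.mem; with_reducible apply IntF.snd; with_reducible exact IntF.fst'; with_reducible apply IntF.fst; with_reducible apply IntF.fst; with_reducible apply IntF.fst; with_reducible exact IntF.fst'; with_reducible apply Int.and; with_reducible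 apply Int.mem; with_reducible exact IntF.snd'; with_reducible apply IntF.fst; with_reducible apply IntF.fst; with_reducible apply IntF.fst; with_reducible exact IntF.fst'; with_reducible apply Int.eq; with_reducible apply IntF.snd; with_reducible apply IntF.fst; with_reducible apply IntF.fst; with_reducible exact IntF.fst'; with_reducible apply IntF.bsup; with_reducible apply IntF.binf; with_reducible apply IntF.snd; with_reducible exact IntF.fst'; with_reducible apply IntF.pair; with_reducible apply IntF.app; with_reducible exact IntF.const _; with_reducible apply IntF.mis; with_reducible apply IntF.fst; with_reducible apply IntF.fst; with_reducible apply IntF.fst; with_reducible exact IntF.fst'; with_reducible apply IntF.snd; with_reducible apply IntF.fst; with_reducible exact IntF.fst'; with_reducible apply IntF.binf; with_reducible exact IntF.snd'; with_reducible apply IntF.bcompl; with_reducible apply IntF.pair; with_reducible apply IntF.app; with_reducible exact IntF.const _; with_reducible apply IntF.mis; with_reducible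 apply IntF.fst; with_reducible apply IntF.fst; with_reducible apply IntF.fst; with_reducible exact IntF.fst'; with_reducible apply IntF.snd; with_reducible apply IntF.fst; with_reducible exact IntF.fst')

theorem exists_val (hB : ∀ s : IPow M B, ∃ x, IsLUB {y | y ∈ s} x) [IBA M A]
    (R : IPow M (A × B)) (x : A) : ∃ b, IsVal R x b := by
  have hi : Int M (fun y : B => ∃ s : A, (s, y) ∈ R ∧ s ≤ x) := by (with_reducible apply Int.ex; with_reducible apply Int.and; with_reducible apply Int.mem; with_reducible apply IntF.pair; with_reducible exact IntF.snd'; with_reducible exact IntF.fst'; with_reducible exact IntF.const _; with_reducible apply Int.lle; with_reducible exact IntF.snd'; with_reducible exact IntF.const _)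
  obtain ⟨b, hb⟩ := hB (sep M fun y : B => ∃ s : A, (s, y) ∈ R ∧ s ≤ x)
  refine ⟨b, fun s y h1 h2 => ?_, fun w hw => ?_⟩
  · exact hb.1 ((mem_sep hi).2 ⟨s, h1, h2⟩)
  · refine hb.2 fun y hy => ?_
    obtain ⟨s, h1, h2⟩ := (mem_sep hi).1 hy
    exact hw s y h1 h2

/-- Sikorski's theorem for internal types. -/
theorem sikorski [hA : IBA M A] [IBA M B] (hB : ∀ s : IPow M B, ∃ x, IsLUB {y | y ∈ s} x)
    (c : IFun M (IPow M A) A) (hc : ∀ T, (∃ x, x ∈ T) → c T ∈ T) (R₀ : IPow M (A × B))
    (h₀ : IsPH fun q => q ∈ R₀) :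
    ∃ g : BoundedLatticeHom A B, IntF M (fun x => g x) ∧ ∀ x y, (x, y) ∈ R₀ → g x = y := by
  have hF : IntF M (fun S : IPow M (A × B) => cpl (sep M fun q => Xt c (cpl S) q)) := by
    refine IntF.cpl (IntF.sep ?_)
    exact Int.comp₂ (p := fun (R : IPow M (A × B)) (q : A × B) => Xt c R q) (int_xt c)
      (IntF.cpl IntF.fst') IntF.snd'
  have hX : ∀ R : IPow M (A × B), Int M (fun q => Xt c R q) := fun R =>
    Int.slice (p := fun (R : IPow M (A × B)) (q : A × B) => Xt c R q) (int_xt c) R
  obtain ⟨S, ⟨hS1, hS2⟩, hS3⟩ := bourbaki_witt hF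
    (Q := fun S => IsPH (fun q => q ∈ cpl S) ∧ ∀ q, q ∈ R₀ → q ∈ cpl S) (by (with_reducible apply Int.and; with_reducible apply Int.isPH; with_reducible apply IntF.cpl; with_reducible exact IntF.id; with_reducible apply Int.all; with_reducible apply Int.imp; with_reducible apply Int.mem; with_reducible exact IntF.snd'; with_reducible exact IntF.const _; with_reducible apply Int.mem; with_reducible exact IntF.snd'; with_reducible apply IntF.cpl; with_reducible exact IntF.fst'))
    (top := cpl R₀) (by rw [cpl_cpl]; exact ⟨h₀, fun _ => id⟩) (by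
      rintro S ⟨h1, h2⟩
      have h3 : ∀ q, q ∈ cpl S → Xt c (cpl S) q := fun q hq => Or.inl hq
      refine ⟨⟨?_, ?_⟩, ?_⟩
      · rw [cpl_cpl]
        by_cases hz : ∃ z, z ∈ mis (cpl S)
        · obtain ⟨b, hb⟩ := exists_val hB (cpl S) (c (mis (cpl S)))
          have h4 := h1.stp hb.1 hb.2
          have h5 : (fun q => q ∈ sep M fun q => Xt c (cpl S) q) =
              Stp (fun q => q ∈ cpl S) (c (mis (cpl S)), b) := by
            funext q
            refine propext ((mem_sep (hX _)).trans ⟨?_, ?_⟩)
            · rintro (h | ⟨-, b', hb', h⟩)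
              · exact stp_of h
              · have h6 : b' = b := le_antisymm (hb'.2 _ hb.1) (hb.2 _ hb'.1)
                rwa [h6] at h
            · intro h
              exact Or.inr ⟨hz, b, hb, h⟩
          rw [h5]
          exact h4
        · have h5 : (fun q => q ∈ sep M fun q => Xt c (cpl S) q) = fun q => q ∈ cpl S := by
            funext q
            refine propext ((mem_sep (hX _)).trans ⟨?_, Or.inl⟩)
            rintro (h | ⟨h, -⟩)
            · exact h
            · exact absurd h hz
          rw [h5]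
          exact h1
      · rw [cpl_cpl]
        exact fun q hq => (mem_sep (hX _)).2 (h3 q (h2 q hq))
      · intro q hq
        rw [mem_cpl, mem_sep (hX _)] at hq
        by_contra h
        exact hq (h3 q (mem_cpl.2 h)))
    (by
      rintro C ⟨s₀, hs₀⟩ hC hch
      have hm : ∀ q, q ∈ cpl (isInter C) ↔ ∃ s, s ∈ C ∧ q ∈ cpl s := by
        intro q
        rw [mem_cpl, mem_isInter]
        push Not
        simp only [mem_cpl]
      refine ⟨⟨?_, ?_, ?_, ?_⟩, ?_⟩
      · exact (hm _).2 ⟨s₀, hs₀, (hC s₀ hs₀).1.1⟩
      · intro p q hp hq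
        obtain ⟨s, hs, h1⟩ := (hm _).1 hp
        obtain ⟨t, ht, h2⟩ := (hm _).1 hq
        rcases hch s t hs ht with h | h
        · exact (hm _).2 ⟨s, hs, (hC s hs).1.2.1 _ _ h1
            (mem_cpl.2 fun h3 => mem_cpl.1 h2 (h _ h3))⟩
        · exact (hm _).2 ⟨t, ht, (hC t ht).1.2.1 _ _
            (mem_cpl.2 fun h3 => mem_cpl.1 h1 (h _ h3)) h2⟩
      · intro p hp
        obtain ⟨s, hs, h1⟩ := (hm _).1 hp
        exact (hm _).2 ⟨s, hs, (hC s hs).1.2.2.1 _ h1⟩
      · intro b hb
        obtain ⟨s, hs, h1⟩ := (hm _).1 hb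
        exact (hC s hs).1.2.2.2 _ h1
      · intro q hq
        exact (hm _).2 ⟨s₀, hs₀, (hC s₀ hs₀).2 q hq⟩)
  have hS4 : ∀ q, Xt c (cpl S) q → q ∈ cpl S := by
    intro q hq
    have h1 := (mem_sep (hX (cpl S))).2 hq
    rw [← hS3, mem_cpl, mem_cpl, not_not]
    exact h1
  have htot : ∀ a, ∃ b, (a, b) ∈ cpl S := by
    by_contra hcon
    push Not at hcon
    obtain ⟨a, ha⟩ := hcon
    have hz : ∃ z, z ∈ mis (cpl S) := ⟨a, mem_mis.2 ha⟩
    obtain ⟨b, hb⟩ := exists_val hB (cpl S) (c (mis (cpl S)))
    refine mem_mis.1 (hc _ hz) b (hS4 _ (Or.inr ⟨hz, b, hb, ?_⟩))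
    exact hS1.stp_self
  obtain ⟨g, hg⟩ := hS1.exists_hom htot
  refine ⟨g, ?_, fun x y hxy => (hg x y).2 (hS2 _ hxy)⟩
  exact (cpl S).int_mem.congr fun q => (hg q.1 q.2).symm

end Pool.Agent.Helper672.ZFA
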